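import Pool.Agent.W2helper25.PP.Stab

/-!
# Stabilizers of long paths are finite, of bounded order
-/

set_option autoImplicit false

namespace Pool.Agent.W2helper25.PP

open Polynomial

variable {K : Type} [Field K]

/-- `b` fixes a path of length six -/
def St (d : ℕ) (e1 e2 a a0 a2 b : GA2 K) : Prop :=
  b ∈ Aff K ∧ b ∈ Trd K d ∧ a⁻¹ * b * a ∈ Trd K d ∧ e1⁻¹ * b * e1 ∈ Aff K ∧
  (e1 * a0)⁻¹ * b * (e1 * a0) ∈ Trd K d ∧ (a * e2)⁻¹ * b * (a * e2) ∈ Aff K ∧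
  (a * e2 * a2)⁻¹ * b * (a * e2 * a2) ∈ Trd K d

theorem conj_mem {G : Type} [Group G] (H : Subgroup G) {g b c : G} (h1 : g⁻¹ * b * g ∈ H)
    (h2 : g⁻¹ * c * g ∈ H) : g⁻¹ * (b⁻¹ * c) * g ∈ H := by
  have := mul_mem (inv_mem h1) h2
  have e : (g⁻¹ * b * g)⁻¹ * (g⁻¹ * c * g) = g⁻¹ * (b⁻¹ * c) * g := by group
  rwa [e] at this

theorem St.div {d : ℕ} {e1 e2 a a0 a2 b c : GA2 K} (h : St d e1 e2 a a0 a2 b)
    (h' : St d e1 e2 a a0 a2 c) : St d e1 e2 a a0 a2 (b⁻¹ * c) := by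
  obtain ⟨x1, x2, x3, x4, x5, x6, x7⟩ := h
  obtain ⟨y1, y2, y3, y4, y5, y6, y7⟩ := h'
  exact ⟨mul_mem (inv_mem x1) y1, mul_mem (inv_mem x2) y2, conj_mem _ x3 y3, conj_mem _ x4 y4,
    conj_mem _ x5 y5, conj_mem _ x6 y6, conj_mem _ x7 y7⟩

/-- the constraints from one side, for a general triangular automorphism -/
theorem side [CharZero K] {e1 a0 : GA2 K} {d : ℕ} (hd : 1 ≤ d)
    (he : e1 ∈ Trd K d) (he' : e1 ∉ Aff K) (ha0 : a0 ∈ Aff K) (ha0' : a0 ∉ Trd K d) :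
    ∃ m : ℕ, 2 ≤ m ∧ m ≤ d ∧ ∀ (b : GA2 K) (a r c s e : K), Bor b a r c s e →
      e1⁻¹ * b * e1 ∈ Aff K → (e1 * a0)⁻¹ * b * (e1 * a0) ∈ Trd K d →
      a = s ^ m ∧ (s = 1 → r = 0 → e = 0) := by
  obtain ⟨p, b1, hp2, hpd, ⟨a1, r1, c1, s1, f1, hb1⟩, rfl⟩ := tr_not_aff he he'
  refine ⟨p.natDegree, hp2, hpd, ?_⟩
  intro b a r c s e hb h1 h2
  have hb1A := hb1.aff
  have hb1T := hb1.tr hd
  have e1' : (elem p * b1)⁻¹ * b * (elem p * b1) = b1⁻¹ * ((elem p)⁻¹ * b * elem p) * b1 := by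
    group
  rw [e1'] at h1
  have h3 : (elem p)⁻¹ * b * elem p ∈ Aff K := by
    have := mul_mem (mul_mem hb1A h1) (inv_mem hb1A)
    have e2 : b1 * (b1⁻¹ * ((elem p)⁻¹ * b * elem p) * b1) * b1⁻¹ =
        (elem p)⁻¹ * b * elem p := by group
    rwa [e2] at this
  apply tri_vertex hd hb hp2 h3 (mul_mem hb1A ha0) (a0 := b1 * a0)
  · intro h
    apply ha0'
    have := mul_mem (inv_mem hb1T) h
    rwa [inv_mul_cancel_left] at this
  · have e2 : (b1 * a0)⁻¹ * ((elem p)⁻¹ * b * elem p) * (b1 * a0) =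
        (elem p * b1 * a0)⁻¹ * b * (elem p * b1 * a0) := by group
    rw [e2]
    exact h2

theorem st_main [CharZero K] {d : ℕ} {e1 e2 a a0 a2 : GA2 K} (hd : 1 ≤ d)
    (he1 : e1 ∈ Trd K d) (he1' : e1 ∉ Aff K) (he2 : e2 ∈ Trd K d) (he2' : e2 ∉ Aff K)
    (ha : a ∈ Aff K) (ha' : a ∉ Trd K d) (ha0 : a0 ∈ Aff K) (ha0' : a0 ∉ Trd K d)
    (ha2 : a2 ∈ Aff K) (ha2' : a2 ∉ Trd K d) :
    ∃ N : ℕ, 1 ≤ N ∧ N ≤ d * d ∧ ∀ b, St d e1 e2 a a0 a2 b →
      ∃ x r c s e : K, Bor b x r c s e ∧ s ^ N = 1 ∧ (s = 1 → b = 1) := by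
  obtain ⟨m1, hm1, hm1d, H1⟩ := side hd he1 he1' ha0 ha0'
  obtain ⟨m2, hm2, hm2d, H2⟩ := side hd he2 he2' ha2 ha2'
  have hmm : 4 ≤ m1 * m2 := by nlinarith
  refine ⟨m1 * m2 - 1, by omega, ?_, ?_⟩
  · have : m1 * m2 ≤ d * d := Nat.mul_le_mul hm1d hm2d
    omega
  intro b hb
  obtain ⟨hbA, hbT, hab, hb4, hb5, hb6, hb7⟩ := hb
  obtain ⟨x, r, c, s, e, hbor⟩ := bor_of hbA hbT
  obtain ⟨c1, hc1⟩ : ∃ c1, c1 = a⁻¹ * b * a := ⟨_, rfl⟩
  rw [← hc1] at hab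
  have hc1A : c1 ∈ Aff K := by rw [hc1]; exact mul_mem (mul_mem (inv_mem ha) hbA) ha
  obtain ⟨x', r', c', s', e', hbor'⟩ := bor_of hc1A hab
  obtain ⟨u, v, w, hu, hv⟩ := aff_not_tr hd ha ha'
  have haiA := inv_mem ha
  have hai' : a⁻¹ ∉ Trd K d := fun h => ha' (by have := inv_mem h; rwa [inv_inv] at this)
  obtain ⟨u', v', w', hu', hv'⟩ := aff_not_tr hd haiA hai'
  obtain ⟨k1, t1, k2, k3⟩ := second hbor.2.2.1 hbor.2.2.2 hu hv (by rw [← hc1]; exact hab)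
  have hback : (a⁻¹)⁻¹ * c1 * a⁻¹ = b := by rw [hc1]; group
  obtain ⟨l1, t2, l2, l3⟩ := second hbor'.2.2.1 hbor'.2.2.2 hu' hv' (by rw [hback]; exact hbT)
  rw [← hc1, hbor'.2.2.2] at k2
  rw [hback, hbor.2.2.2] at l2
  obtain ⟨_, hs'x, ht1⟩ := lin_inj k2
  obtain ⟨_, hsx', _⟩ := lin_inj l2
  obtain ⟨q1, q1'⟩ := H1 b x r c s e hbor hb4 hb5
  have g1 : (a * e2)⁻¹ * b * (a * e2) = e2⁻¹ * c1 * e2 := by rw [hc1]; group
  have g2 : (a * e2 * a2)⁻¹ * b * (a * e2 * a2) = (e2 * a2)⁻¹ * c1 * (e2 * a2) := by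
    rw [hc1]; group
  rw [g1] at hb6
  rw [g2] at hb7
  obtain ⟨q2, q2'⟩ := H2 c1 x' r' c' s' e' hbor' hb6 hb7
  refine ⟨x, r, c, s, e, hbor, ?_, ?_⟩
  · have h1 : s ^ (m1 * m2) = s := by
      rw [pow_mul, ← q1, ← hs'x, ← q2, ← hsx']
    have h2 : s ^ (m1 * m2) = s ^ (m1 * m2 - 1) * s := by
      rw [← pow_succ]; congr 1; omega
    rw [h2] at h1
    exact mul_right_cancel₀ hbor.2.1 (by rw [h1, one_mul])
  · intro hs
    rw [hs, one_pow] at q1
    have hx : x = 1 := q1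
    have hs'1 : s' = 1 := by rw [hs'x, hx]
    have hx'1 : x' = 1 := by rw [← hsx', hs]
    have hr : r = 0 := by
      rw [hx, hs] at k1
      have : u * r = 0 := by linear_combination k1
      exact (mul_eq_zero.mp this).resolve_left hu
    have hr' : r' = 0 := by
      rw [hx'1, hs'1] at l1
      have : u' * r' = 0 := by linear_combination l1
      exact (mul_eq_zero.mp this).resolve_left hu'
    have he : e = 0 := q1' hs hr
    have he' : e' = 0 := q2' hs'1 hr'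
    have hc : c = 0 := by
      rw [← ht1, he', he, hx] at k3
      have : u * c = 0 := by linear_combination k3
      exact (mul_eq_zero.mp this).resolve_left hu
    apply ext2
    · rw [hbor.2.2.1, hx, hr, hc]; simp [lin]
    · rw [hbor.2.2.2, hs, he]; simp [lin]

/-- the pointwise stabilizers of the paths of length six are finite of bounded order -/
theorem st_card [CharZero K] {d : ℕ} {e1 e2 a a0 a2 : GA2 K} (hd : 1 ≤ d)
    (he1 : e1 ∈ Trd K d) (he1' : e1 ∉ Aff K) (he2 : e2 ∈ Trd K d) (he2' : e2 ∉ Aff K)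
    (ha : a ∈ Aff K) (ha' : a ∉ Trd K d) (ha0 : a0 ∈ Aff K) (ha0' : a0 ∉ Trd K d)
    (ha2 : a2 ∈ Aff K) (ha2' : a2 ∉ Trd K d) (F : Finset (GA2 K))
    (hF : ∀ b ∈ F, St d e1 e2 a a0 a2 b) : F.card ≤ d * d := by
  classical
  obtain ⟨N, hN, hNd, H⟩ := st_main hd he1 he1' he2 he2' ha ha' ha0 ha0' ha2 ha2'
  let δ : GA2 K → K := fun b => MvPolynomial.coeff (ex 0 1) (b vy)
  have hδ : ∀ {b : GA2 K} {x r c s e : K}, Bor b x r c s e → δ b = s := by
    intro b x r c s e h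
    show MvPolynomial.coeff (ex 0 1) (b vy) = s
    rw [h.2.2.2]; exact (coeff_lin 0 s e).2.1
  have h1 : F.card ≤ (Polynomial.nthRoots N (1 : K)).toFinset.card := by
    apply Finset.card_le_card_of_injOn δ
    · intro b hb
      obtain ⟨x, r, c, s, e, hbor, hs, _⟩ := H b (hF b hb)
      rw [Finset.mem_coe, Multiset.mem_toFinset, Polynomial.mem_nthRoots (by omega), hδ hbor]
      exact hs
    · intro b hb c hc hbc
      obtain ⟨x, r, c0, s, e, hbor, hs, _⟩ := H b (hF b hb)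
      obtain ⟨x', r', c0', s', e', hbor', hs', _⟩ := H c (hF c hc)
      have hst := (hF b hb).div (hF c hc)
      obtain ⟨x'', r'', c'', s'', e'', hbor'', _, h2⟩ := H _ hst
      have hss : s = s' := by rw [← hδ hbor, ← hδ hbor']; exact hbc
      have h3 : b⁻¹ vy = lin 0 s⁻¹ (-(s⁻¹ * e)) := by
        apply inv_eq
        rw [map_lin, hbor.2.2.2]
        have e3 : (MvPolynomial.C s⁻¹ * MvPolynomial.C s : P2 K) = 1 := by
          rw [← map_mul, inv_mul_cancel₀ hbor.2.1, map_one]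
        simp only [lin, map_zero, map_neg, map_mul]
        linear_combination vy * e3
      have h4 : (b⁻¹ * c) vy = lin 0 1 (s * (-(s⁻¹ * e)) + e') := by
        rw [AlgEquiv.mul_apply, hbor'.2.2.2, map_lin, h3, ← hss]
        have e3 : (MvPolynomial.C s * MvPolynomial.C s⁻¹ : P2 K) = 1 := by
          rw [← map_mul, mul_inv_cancel₀ hbor.2.1, map_one]
        simp only [lin, map_zero, map_neg, map_mul, map_add, map_one]
        linear_combination vy * e3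
      have h5 : s'' = 1 := by
        rw [hbor''.2.2.2] at h4
        exact (lin_inj h4).2.1
      have h6 := h2 h5
      rw [inv_mul_eq_one] at h6
      exact h6
  refine h1.trans ((Multiset.toFinset_card_le _).trans ((Polynomial.card_nthRoots N 1).trans hNd))

end Pool.Agent.W2helper25.PP
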