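import Mathlib

/-!
# Coset graphs and trees
-/

set_option autoImplicit false

namespace Pool.Agent.W2helper25.PP

open SimpleGraph

/-- a graph with a height function such that every vertex has at most one lower neighbour is
acyclic -/
theorem acyclic_of_height {V : Type} (T : SimpleGraph V) (h : V → ℕ)
    (hne : ∀ u v, T.Adj u v → h u ≠ h v)
    (huniq : ∀ v a b, T.Adj v a → T.Adj v b → h a < h v → h b < h v → a = b) :
    T.IsAcyclic := by
  classical
  intro v c hc
  obtain ⟨u, hu, hmax⟩ : ∃ u ∈ c.support, ∀ w ∈ c.support, h w ≤ h u := by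
    have hne' : c.support.toFinset.Nonempty := ⟨v, by simp⟩
    obtain ⟨u, hu, hm⟩ := Finset.exists_max_image c.support.toFinset h hne'
    exact ⟨u, by simpa using hu, fun w hw => hm w (by simpa using hw)⟩
  obtain ⟨c', hc'⟩ : ∃ c', c' = c.rotate u hu := ⟨_, rfl⟩
  have hcyc : c'.IsCycle := by rw [hc']; exact hc.rotate hu
  have hsup : ∀ w ∈ c'.support, w ∈ c.support := by
    intro w hw
    rw [hc'] at hw
    exact (Walk.mem_support_rotate_iff c u hu).mp hw
  have hnil : ¬ c'.Nil := hcyc.not_nil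
  have a1 : T.Adj u c'.snd := c'.adj_snd hnil
  have a2 : T.Adj u c'.penultimate := (c'.adj_penultimate hnil).symm
  have b1 : h c'.snd < h u := lt_of_le_of_ne (hmax _ (hsup _ (Walk.getVert_mem_support _ 1)))
    (fun e => hne _ _ a1 e.symm)
  have b2 : h c'.penultimate < h u :=
    lt_of_le_of_ne (hmax _ (hsup _ (Walk.getVert_mem_support _ _))) (fun e => hne _ _ a2 e.symm)
  exact hcyc.snd_ne_penultimate (huniq u _ _ a1 a2 b1 b2)

section coset

variable {G : Type} [Group G] (A B : Subgroup G)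

/-- the coset graph of two subgroups -/
def cg : SimpleGraph ((G ⧸ A) ⊕ (G ⧸ B)) where
  Adj x y := ∃ g : G, (x = Sum.inl (QuotientGroup.mk g) ∧ y = Sum.inr (QuotientGroup.mk g)) ∨
    (y = Sum.inl (QuotientGroup.mk g) ∧ x = Sum.inr (QuotientGroup.mk g))
  symm := ⟨by
    rintro x y ⟨g, h | h⟩
    · exact ⟨g, Or.inr h⟩
    · exact ⟨g, Or.inl h⟩⟩
  loopless := ⟨by
    rintro x ⟨g, ⟨h1, h2⟩ | ⟨h1, h2⟩⟩
    · rw [h1] at h2; cases h2
    · rw [h1] at h2; cases h2⟩

theorem cg_connected (h : A ⊔ B = ⊤) : (cg A B).Connected := by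
  rw [connected_iff]
  refine ⟨?_, ⟨Sum.inl (QuotientGroup.mk 1)⟩⟩
  have hadj : ∀ g : G, (cg A B).Adj (Sum.inl (QuotientGroup.mk g))
      (Sum.inr (QuotientGroup.mk g)) := fun g => ⟨g, Or.inl ⟨rfl, rfl⟩⟩
  have key : ∀ g : G, ∀ k : G, (cg A B).Reachable (Sum.inl (QuotientGroup.mk k))
      (Sum.inl (QuotientGroup.mk (k * g))) := by
    intro g
    have hg : g ∈ A ⊔ B := by rw [h]; exact Subgroup.mem_top g
    rw [← Subgroup.closure_eq A, ← Subgroup.closure_eq B, ← Subgroup.closure_union] at hg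
    induction hg using Subgroup.closure_induction with
    | mem x hx =>
      intro k
      rcases hx with hx | hx
      · have : (QuotientGroup.mk (k * x) : G ⧸ A) = QuotientGroup.mk k := by
          rw [eq_comm, QuotientGroup.eq]; simpa using hx
        rw [this]
      · have : (QuotientGroup.mk (k * x) : G ⧸ B) = QuotientGroup.mk k := by
          rw [eq_comm, QuotientGroup.eq]; simpa using hx
        refine (hadj k).reachable.trans ?_
        rw [← this]
        exact (hadj (k * x)).symm.reachable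
    | one => intro k; rw [mul_one]
    | mul x y _ _ hx hy =>
      intro k
      rw [← mul_assoc]
      exact (hx k).trans (hy (k * x))
    | inv x _ hx =>
      intro k
      have := hx (k * x⁻¹)
      rw [inv_mul_cancel_right] at this
      exact this.symm
  have h1 : ∀ v, (cg A B).Reachable (Sum.inl (QuotientGroup.mk 1)) v := by
    rintro (v | v)
    · obtain ⟨g, rfl⟩ := QuotientGroup.mk_surjective v
      simpa using key g 1
    · obtain ⟨g, rfl⟩ := QuotientGroup.mk_surjective v
      exact (by simpa using key g 1 : (cg A B).Reachable _ _).trans (hadj g).reachable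
  intro u v
  exact (h1 u).symm.trans (h1 v)

/-- a criterion for trees -/
theorem cg_tree (h : A ⊔ B = ⊤) (hA hB : G → ℕ)
    (hA1 : ∀ g, ∀ a ∈ A, hA (g * a) = hA g) (hB1 : ∀ g, ∀ b ∈ B, hB (g * b) = hB g)
    (hA2 : ∀ g, ∀ a ∈ A, hB g < hA g → hB (g * a) < hA g → a ∈ B)
    (hB2 : ∀ g, ∀ b ∈ B, hA g ≤ hB g → hA (g * b) ≤ hB g → b ∈ A) :
    (cg A B).IsTree := by
  refine ⟨cg_connected A B h, ?_⟩
  let ht : (G ⧸ A) ⊕ (G ⧸ B) → ℕ := fun v => match v with
    | Sum.inl v => Quotient.liftOn' v (fun g => 2 * hA g) (fun a b hab => by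
        rw [QuotientGroup.leftRel_apply] at hab
        have := hA1 a _ hab
        rw [mul_inv_cancel_left] at this
        show 2 * hA a = 2 * hA b
        rw [this])
    | Sum.inr v => Quotient.liftOn' v (fun g => 2 * hB g + 1) (fun a b hab => by
        rw [QuotientGroup.leftRel_apply] at hab
        have := hB1 a _ hab
        rw [mul_inv_cancel_left] at this
        show 2 * hB a + 1 = 2 * hB b + 1
        rw [this])
  have e1 : ∀ g : G, ht (Sum.inl (QuotientGroup.mk g)) = 2 * hA g := fun g => rfl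
  have e2 : ∀ g : G, ht (Sum.inr (QuotientGroup.mk g)) = 2 * hB g + 1 := fun g => rfl
  apply acyclic_of_height _ ht
  · rintro u v ⟨g, ⟨rfl, rfl⟩ | ⟨rfl, rfl⟩⟩
    · rw [e1, e2]; omega
    · rw [e1, e2]; omega
  · rintro v a b ⟨g, ⟨rfl, rfl⟩ | ⟨rfl, rfl⟩⟩ ⟨k, ⟨h1, rfl⟩ | ⟨rfl, h1⟩⟩ h2 h3
    · -- an `A`-vertex
      rw [Sum.inl.injEq, QuotientGroup.eq] at h1
      rw [e1, e2] at h2 h3
      have h4 := hA2 g _ h1 (by omega) (by rw [mul_inv_cancel_left]; omega)
      rw [Sum.inr.injEq, QuotientGroup.eq]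
      exact h4
    · cases h1
    · cases h1
    · rw [Sum.inr.injEq, QuotientGroup.eq] at h1
      have h5 := hB1 g _ h1
      rw [mul_inv_cancel_left] at h5
      rw [e1, e2] at h2 h3
      have h4 := hB2 g _ h1 (by omega) (by rw [mul_inv_cancel_left]; omega)
      rw [Sum.inl.injEq, QuotientGroup.eq]
      exact h4

end coset

end Pool.Agent.W2helper25.PP
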