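import Pool.Agent.W2helper25.PP.Jung
import Pool.Agent.W2helper25.PP.Tree
import Pool.Agent.W2helper25.PP.Cnt
import Pool.Agent.N509.TX.Fg

/-!
# The action of groups of polynomial automorphisms of the plane on a tree
-/

set_option autoImplicit false

namespace Pool.Agent.W2helper25.PP

open SimpleGraph
open Pool.Agent.Y110.FJ (ClosedE)
open Pool.Agent.N509.TX (AcylF of_fg)

variable {K : Type} [Field K]

/-- the group generated by the affine and the triangular automorphisms of degree at most `d` -/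
noncomputable def Gd (K : Type) [Field K] (d : ℕ) : Subgroup (GA2 K) := Aff K ⊔ Trd K d

theorem aff_le (d : ℕ) : Aff K ≤ Gd K d := le_sup_left
theorem trd_le (d : ℕ) : Trd K d ≤ Gd K d := le_sup_right

/-- the larger one of the degrees of the images of `x` and `y` -/
noncomputable def hx (g : GA2 K) : ℕ := max (dg (g vx)) (dg (g vy))
/-- the degree of the image of `y` -/
noncomputable def hy (g : GA2 K) : ℕ := dg (g vy)

theorem dg_map_lin_le (g : GA2 K) (a b c : K) : dg (g (lin a b c)) ≤ hx g := by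
  rw [map_lin]
  refine (dg_add_le _ _).trans (max_le ((dg_add_le _ _).trans (max_le ?_ ?_)) ?_)
  · exact (dg_C_mul_le _ _).trans (le_max_left _ _)
  · exact (dg_C_mul_le _ _).trans (le_max_right _ _)
  · rw [dg_C]; exact Nat.zero_le _

theorem hx_aff (g : GA2 K) {a : GA2 K} (ha : a ∈ Aff K) : hx (g * a) = hx g := by
  have key : ∀ (g a : GA2 K), a ∈ Aff K → hx (g * a) ≤ hx g := by
    rintro g a ⟨⟨x, y, z, h1⟩, x', y', z', h2⟩
    apply max_le
    · rw [AlgEquiv.mul_apply, h1]; exact dg_map_lin_le _ _ _ _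
    · rw [AlgEquiv.mul_apply, h2]; exact dg_map_lin_le _ _ _ _
  refine le_antisymm (key g a ha) ?_
  have := key (g * a) a⁻¹ (inv_mem ha)
  rwa [mul_inv_cancel_right] at this

theorem hy_tr (g : GA2 K) {b : GA2 K} {d : ℕ} (hb : b ∈ Trd K d) : hy (g * b) = hy g := by
  have key : ∀ (g b : GA2 K), b ∈ Trd K d → hy (g * b) ≤ hy g := by
    rintro g b ⟨a, s, e, p, ha, hs, hp, h1, h2⟩
    rw [hy, AlgEquiv.mul_apply, h2, map_lin, MvPolynomial.C_0, zero_mul, zero_add]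
    refine (dg_add_le _ _).trans (max_le (dg_C_mul_le _ _) ?_)
    rw [dg_C]; exact Nat.zero_le _
  refine le_antisymm (key g b hb) ?_
  have := key (g * b) b⁻¹ (inv_mem hb)
  rwa [mul_inv_cancel_right] at this

theorem hx2 {d : ℕ} (hd : 1 ≤ d) (g a : GA2 K) (ha : a ∈ Aff K) (h1 : hy g < hx g)
    (h2 : hy (g * a) < hx g) : a ∈ Trd K d := by
  by_contra hc
  obtain ⟨u, v, w, hu, hv⟩ := aff_not_tr hd ha hc
  have h3 : dg (g vy) < dg (g vx) := by
    unfold hy hx at h1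
    rcases le_total (dg (g vx)) (dg (g vy)) with h | h
    · rw [max_eq_right h] at h1; omega
    · rw [max_eq_left h] at h1; exact h1
  have h4 : hx g = dg (g vx) := max_eq_left h3.le
  rw [h4, hy, AlgEquiv.mul_apply, hv, map_lin] at h2
  have h5 : dg (MvPolynomial.C u * g vx + MvPolynomial.C v * g vy) = dg (g vx) := by
    rw [dg_add_eq', dg_C_mul hu]
    rw [dg_C_mul hu]
    exact lt_of_le_of_lt (dg_C_mul_le _ _) h3
  rw [dg_add_eq', h5] at h2
  · omega
  · rw [h5, dg_C]; omega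

theorem hy2 {d : ℕ} (g b : GA2 K) (hb : b ∈ Trd K d) (h1 : hx g ≤ hy g)
    (h2 : hx (g * b) ≤ hy g) : b ∈ Aff K := by
  obtain ⟨a, s, e, p, ha, hs, hp, hbx, hby⟩ := hb
  have h3 : dg (g vx) ≤ dg (g vy) := (le_max_left _ _).trans h1
  have h4 : dg ((g * b) vx) ≤ dg (g vy) := (le_max_left _ _).trans h2
  have hpos : 1 ≤ dg (g vy) := dg_pos g (f := vy) (by simp)
  have h5 : dg (Polynomial.aeval (g vy) p) ≤ dg (g vy) := by
    have e1 : Polynomial.aeval (g vy) p = (g * b) vx - MvPolynomial.C a * g vx := by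
      rw [AlgEquiv.mul_apply, hbx, map_tri]; ring
    rw [e1]
    exact (dg_sub_le _ _).trans (max_le h4 ((dg_C_mul_le _ _).trans h3))
  rw [dg_aeval] at h5
  have h6 : p.natDegree ≤ 1 := by
    by_contra hc
    have : 2 * dg (g vy) ≤ p.natDegree * dg (g vy) := Nat.mul_le_mul_right _ (by omega)
    omega
  rw [mem_Aff, hbx, hby]
  exact ⟨(dg_tri_le _ _).trans (max_le le_rfl h6), dg_lin _ _ _⟩

/-- the tree of `Gd` -/
noncomputable abbrev TT (K : Type) [Field K] (d : ℕ) :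
    SimpleGraph ((↥(Gd K d) ⧸ (Aff K).subgroupOf (Gd K d)) ⊕
      (↥(Gd K d) ⧸ (Trd K d).subgroupOf (Gd K d))) :=
  cg ((Aff K).subgroupOf (Gd K d)) ((Trd K d).subgroupOf (Gd K d))

theorem TT_tree {d : ℕ} (hd : 1 ≤ d) : (TT K d).IsTree := by
  refine cg_tree _ _ ?_ (fun g : ↥(Gd K d) => hx (g : GA2 K))
    (fun g : ↥(Gd K d) => hy (g : GA2 K)) ?_ ?_ ?_ ?_
  · rw [← Subgroup.subgroupOf_sup (aff_le d) (trd_le d)]
    exact Subgroup.subgroupOf_self _
  · intro g a ha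
    exact hx_aff (g : GA2 K) (Subgroup.mem_subgroupOf.mp ha)
  · intro g b hb
    exact hy_tr (g : GA2 K) (Subgroup.mem_subgroupOf.mp hb)
  · intro g a ha h1 h2
    exact Subgroup.mem_subgroupOf.mpr (hx2 hd _ _ (Subgroup.mem_subgroupOf.mp ha) h1 h2)
  · intro g b hb h1 h2
    exact Subgroup.mem_subgroupOf.mpr (hy2 _ _ (Subgroup.mem_subgroupOf.mp hb) h1 h2)

/-- the elements that fix all vertices of a path of length six starting at a triangular vertex -/
theorem six [CharZero K] {d : ℕ} (hd : 1 ≤ d)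
    (w : ℕ → (↥(Gd K d) ⧸ (Aff K).subgroupOf (Gd K d)) ⊕
      (↥(Gd K d) ⧸ (Trd K d).subgroupOf (Gd K d)))
    (h0 : ∃ v, w 0 = Sum.inr v) (hadj : ∀ i < 6, (TT K d).Adj (w i) (w (i + 1)))
    (hne : ∀ i < 5, w i ≠ w (i + 2)) (F : Finset ↥(Gd K d))
    (hF : ∀ g ∈ F, ∀ i ≤ 6, g • w i = w i) : F.card ≤ d * d := by
  classical
  obtain ⟨v0, hv0⟩ := h0
  obtain ⟨z1, ⟨h, _⟩ | ⟨hz1, hz1'⟩⟩ := hadj 0 (by omega)
  · rw [hv0] at h; cases h
  obtain ⟨y1, ⟨hy1, hy1'⟩ | ⟨_, h⟩⟩ := hadj 1 (by omega)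
  swap
  · rw [hz1] at h; cases h
  obtain ⟨x1, ⟨h, _⟩ | ⟨hx1, hx1'⟩⟩ := hadj 2 (by omega)
  · rw [hy1'] at h; cases h
  obtain ⟨x2, ⟨hx2, hx2'⟩ | ⟨_, h⟩⟩ := hadj 3 (by omega)
  swap
  · rw [hx1] at h; cases h
  obtain ⟨y2, ⟨h, _⟩ | ⟨hy2, hy2'⟩⟩ := hadj 4 (by omega)
  · rw [hx2'] at h; cases h
  obtain ⟨z2, ⟨hz2, hz2'⟩ | ⟨_, h⟩⟩ := hadj 5 (by omega)
  swap
  · rw [hy2] at h; cases h
  have mA : ∀ {g k : ↥(Gd K d)}, (Sum.inl (QuotientGroup.mk g) : (↥(Gd K d) ⧸ (Aff K).subgroupOf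
      (Gd K d)) ⊕ (↥(Gd K d) ⧸ (Trd K d).subgroupOf (Gd K d))) = Sum.inl (QuotientGroup.mk k) ↔
      (g : GA2 K)⁻¹ * k ∈ Aff K := by
    intro g k
    rw [Sum.inl.injEq, QuotientGroup.eq, Subgroup.mem_subgroupOf]; rfl
  have mB : ∀ {g k : ↥(Gd K d)}, (Sum.inr (QuotientGroup.mk g) : (↥(Gd K d) ⧸ (Aff K).subgroupOf
      (Gd K d)) ⊕ (↥(Gd K d) ⧸ (Trd K d).subgroupOf (Gd K d))) = Sum.inr (QuotientGroup.mk k) ↔
      (g : GA2 K)⁻¹ * k ∈ Trd K d := by
    intro g k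
    rw [Sum.inr.injEq, QuotientGroup.eq, Subgroup.mem_subgroupOf]; rfl
  have fA : ∀ {f g : ↥(Gd K d)} {i : ℕ}, w i = Sum.inl (QuotientGroup.mk g) → f • w i = w i →
      (g : GA2 K)⁻¹ * f * g ∈ Aff K := by
    intro f g i h1 h2
    rw [h1] at h2
    have h3 : (Sum.inl (QuotientGroup.mk (f * g)) : (↥(Gd K d) ⧸ (Aff K).subgroupOf
      (Gd K d)) ⊕ (↥(Gd K d) ⧸ (Trd K d).subgroupOf (Gd K d))) = Sum.inl (QuotientGroup.mk g) := h2
    have h4 := mA.mp h3.symm
    rwa [Subgroup.coe_mul, ← mul_assoc] at h4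
  have fB : ∀ {f g : ↥(Gd K d)} {i : ℕ}, w i = Sum.inr (QuotientGroup.mk g) → f • w i = w i →
      (g : GA2 K)⁻¹ * f * g ∈ Trd K d := by
    intro f g i h1 h2
    rw [h1] at h2
    have h3 : (Sum.inr (QuotientGroup.mk (f * g)) : (↥(Gd K d) ⧸ (Aff K).subgroupOf
      (Gd K d)) ⊕ (↥(Gd K d) ⧸ (Trd K d).subgroupOf (Gd K d))) = Sum.inr (QuotientGroup.mk g) := h2
    have h4 := mB.mp h3.symm
    rwa [Subgroup.coe_mul, ← mul_assoc] at h4
  have he1 : (x1 : GA2 K)⁻¹ * y1 ∈ Trd K d := mB.mp (hx1'.symm.trans hy1')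
  have he1' : (x1 : GA2 K)⁻¹ * y1 ∉ Aff K := fun h =>
    hne 1 (by omega) (hy1.trans ((mA.mpr h).symm.trans hx1.symm))
  have ha0 : (y1 : GA2 K)⁻¹ * z1 ∈ Aff K := mA.mp (hy1.symm.trans hz1)
  have ha0' : (y1 : GA2 K)⁻¹ * z1 ∉ Trd K d := fun h =>
    hne 0 (by omega) (hz1'.trans ((mB.mpr h).symm.trans hy1'.symm))
  have ha : (x1 : GA2 K)⁻¹ * x2 ∈ Aff K := mA.mp (hx1.symm.trans hx2)
  have ha' : (x1 : GA2 K)⁻¹ * x2 ∉ Trd K d := fun h =>
    hne 2 (by omega) (hx1'.trans ((mB.mpr h).trans hx2'.symm))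
  have he2 : (x2 : GA2 K)⁻¹ * y2 ∈ Trd K d := mB.mp (hx2'.symm.trans hy2')
  have he2' : (x2 : GA2 K)⁻¹ * y2 ∉ Aff K := fun h =>
    hne 3 (by omega) (hx2.trans ((mA.mpr h).trans hy2.symm))
  have ha2 : (y2 : GA2 K)⁻¹ * z2 ∈ Aff K := mA.mp (hy2.symm.trans hz2)
  have ha2' : (y2 : GA2 K)⁻¹ * z2 ∉ Trd K d := fun h =>
    hne 4 (by omega) (hy2'.trans ((mB.mpr h).trans hz2'.symm))
  have hinj : Function.Injective (fun f : ↥(Gd K d) => (x1 : GA2 K)⁻¹ * f * x1) := by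
    intro f f' h
    have h1 := mul_left_cancel (mul_right_cancel h)
    exact Subtype.ext h1
  rw [← Finset.card_image_of_injective F hinj]
  apply st_card hd he1 he1' he2 he2' ha ha' ha0 ha0' ha2 ha2'
  intro b hb
  rw [Finset.mem_image] at hb
  obtain ⟨f, hf, rfl⟩ := hb
  have hfix := hF f hf
  refine ⟨fA hx1 (hfix 3 (by omega)), fB hx1' (hfix 2 (by omega)), ?_, ?_, ?_, ?_, ?_⟩
  · have := fB hx2' (hfix 4 (by omega))
    convert this using 1; group
  · have := fA hy1 (hfix 1 (by omega))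
    convert this using 1; group
  · have := fB hz1' (hfix 0 (by omega))
    convert this using 1; group
  · have := fA hy2 (hfix 5 (by omega))
    convert this using 1; group
  · have := fB hz2' (hfix 6 (by omega))
    convert this using 1; group

variable {C : ∀ (G : Type) [Group G], Prop}

/-- finitely generated groups of polynomial automorphisms -/
theorem fg_case [CharZero K] (hC : ClosedE C) (hA : AcylF C)
    (hS : ∀ (G : Type) [Group G], Group.IsSolvable G → C G)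
    (hsol : ∀ d, Group.IsSolvable ↥(Trd K d))
    (H : Subgroup (GA2 K)) (hfg : Group.FG H)
    (hAff : ∀ g : GA2 K, C ↥(H ⊓ (Aff K).map (MulAut.conj g).toMonoidHom)) : C H := by
  classical
  -- the generators lie in a group `Gd`
  obtain ⟨d, hd, hHd⟩ : ∃ d, 1 ≤ d ∧ H ≤ Gd K d := by
    rw [Group.fg_iff_subgroup_fg] at hfg
    obtain ⟨S, hS⟩ := hfg
    have h1 : ∀ s : GA2 K, ∃ d, s ∈ Gd K d := fun s => jung s
    choose f hf using h1
    refine ⟨max 1 (S.sup f), le_max_left _ _, ?_⟩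
    rw [← hS, Subgroup.closure_le]
    intro s hs
    have h2 : f s ≤ max 1 (S.sup f) := (Finset.le_sup hs).trans (le_max_right _ _)
    exact sup_le_sup_left (Trd_mono h2) _ (hf s)
  let ι : ↥H →* ↥(Gd K d) := Subgroup.inclusion hHd
  let V := (↥(Gd K d) ⧸ (Aff K).subgroupOf (Gd K d)) ⊕ (↥(Gd K d) ⧸ (Trd K d).subgroupOf (Gd K d))
  let act : MulAction ↥H V := MulAction.compHom V ι
  have hsm : ∀ (g : ↥H) (v : V), g • v = ι g • v := fun g v => rfl
  refine hA ↥H V (TT K d) hfg (TT_tree hd) ?_ ?_ ⟨7, d * d, ?_⟩ ?_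
  · rintro g u v ⟨k, ⟨rfl, rfl⟩ | ⟨rfl, rfl⟩⟩
    · exact ⟨ι g * k, Or.inl ⟨rfl, rfl⟩⟩
    · exact ⟨ι g * k, Or.inr ⟨rfl, rfl⟩⟩
  · rintro g u v ⟨k, ⟨rfl, rfl⟩ | ⟨rfl, rfl⟩⟩ ⟨h1, h2⟩
    · cases h1
    · cases h1
  · intro u v p hp hlen F hF
    have hadj : ∀ i < p.length, (TT K d).Adj (p.getVert i) (p.getVert (i + 1)) :=
      fun i hi => p.adj_getVert_succ hi
    have hinj := hp.getVert_injOn
    have hne : ∀ i, i + 2 ≤ p.length → p.getVert i ≠ p.getVert (i + 2) := by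
      intro i hi h
      have := hinj (by simp; omega) (by simp; omega) h
      omega
    obtain ⟨i0, hi0, v0, hv0⟩ : ∃ i0 ≤ 1, ∃ v0, p.getVert i0 = Sum.inr v0 := by
      obtain ⟨k, ⟨_, h⟩ | ⟨_, h⟩⟩ := hadj 0 (by omega)
      · exact ⟨1, le_rfl, _, h⟩
      · exact ⟨0, by omega, _, h⟩
    have hinjι : Function.Injective ι := Subgroup.inclusion_injective hHd
    rw [← Finset.card_image_of_injective F hinjι]
    apply six hd (fun i => p.getVert (i0 + i)) ⟨v0, hv0⟩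
    · intro i hi
      exact hadj (i0 + i) (by omega)
    · intro i hi
      exact hne (i0 + i) (by omega)
    · intro g hg i hi
      rw [Finset.mem_image] at hg
      obtain ⟨f, hf, rfl⟩ := hg
      exact hF f hf _ (p.getVert_mem_support _)
  · rintro (v | v)
    · obtain ⟨g, rfl⟩ := QuotientGroup.mk_surjective v
      have hmem : ∀ x : ↥(MulAction.stabilizer (↥H)
          (Sum.inl (QuotientGroup.mk g) : V)), ((x : ↥H) : GA2 K) ∈
            H ⊓ (Aff K).map (MulAut.conj (g : GA2 K)).toMonoidHom := by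
        intro x
        refine ⟨(x : ↥H).2, ?_⟩
        have h1 : (Sum.inl (QuotientGroup.mk (ι (x : ↥H) * g)) : V) =
            Sum.inl (QuotientGroup.mk g) := x.2
        rw [Sum.inl.injEq, eq_comm, QuotientGroup.eq, Subgroup.mem_subgroupOf] at h1
        refine ⟨_, h1, ?_⟩
        show (g : GA2 K) * ((g : GA2 K)⁻¹ * (((x : ↥H) : GA2 K) * g)) * (g : GA2 K)⁻¹ = _
        group
      refine hC.base.of_injective _ _
        (((H.subtype).comp (Subgroup.subtype _)).codRestrict _ hmem) ?_ (hAff g)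
      intro a b hab
      have := congrArg Subtype.val hab
      exact Subtype.ext (Subtype.ext this)
    · obtain ⟨g, rfl⟩ := QuotientGroup.mk_surjective v
      have hmem : ∀ x : ↥(MulAction.stabilizer (↥H)
          (Sum.inr (QuotientGroup.mk g) : V)), (g : GA2 K)⁻¹ * ((x : ↥H) : GA2 K) * g ∈
            Trd K d := by
        intro x
        have h1 : (Sum.inr (QuotientGroup.mk (ι (x : ↥H) * g)) : V) =
            Sum.inr (QuotientGroup.mk g) := x.2
        rw [Sum.inr.injEq, eq_comm, QuotientGroup.eq, Subgroup.mem_subgroupOf] at h1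
        rw [mul_assoc]
        exact h1
      let φ : ↥(MulAction.stabilizer (↥H) (Sum.inr (QuotientGroup.mk g) : V)) →* GA2 K :=
        (MulAut.conj (g : GA2 K)⁻¹).toMonoidHom.comp ((H.subtype).comp (Subgroup.subtype _))
      refine hC.base.of_injective _ _ (φ.codRestrict (Trd K d) ?_) ?_ (hS _ (hsol d))
      · intro x
        have := hmem x
        show (g : GA2 K)⁻¹ * ((x : ↥H) : GA2 K) * ((g : GA2 K)⁻¹)⁻¹ ∈ Trd K d
        rw [inv_inv]
        exact this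
      · intro a b hab
        have h1 : (g : GA2 K)⁻¹ * ((a : ↥H) : GA2 K) * ((g : GA2 K)⁻¹)⁻¹ =
            (g : GA2 K)⁻¹ * ((b : ↥H) : GA2 K) * ((g : GA2 K)⁻¹)⁻¹ := congrArg Subtype.val hab
        have h2 := mul_left_cancel (mul_right_cancel h1)
        exact Subtype.ext (Subtype.ext h2)

end Pool.Agent.W2helper25.PP
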