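import Mathlib

/-!
# The degree of polynomials in two variables through the chart `x = z`, `y = t z`
-/

set_option autoImplicit false

namespace Pool.Agent.W2helper25.PP

open Polynomial

variable {K : Type} [Field K]

/-- polynomials in two variables -/
abbrev P2 (K : Type) [Field K] : Type := MvPolynomial (Fin 2) K

/-- the variable `x` -/
noncomputable abbrev vx : P2 K := MvPolynomial.X 0

/-- the variable `y` -/
noncomputable abbrev vy : P2 K := MvPolynomial.X 1

/-- the chart `x = z`, `y = t z` -/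
noncomputable def ps : P2 K →ₐ[K] K[X][X] :=
  MvPolynomial.aeval ![Polynomial.X, Polynomial.C Polynomial.X * Polynomial.X]

@[simp] theorem ps_x : ps (vx : P2 K) = Polynomial.X := by simp [ps, vx]

@[simp] theorem ps_y : ps (vy : P2 K) = Polynomial.C Polynomial.X * Polynomial.X := by
  simp [ps, vy]

theorem ps_C (a : K) : ps (MvPolynomial.C a : P2 K) = Polynomial.C (Polynomial.C a) := by
  have := (ps (K := K)).commutes a
  rw [MvPolynomial.algebraMap_eq] at this
  rw [this]; rfl

/-- the exponent of `x ^ i * y ^ j` -/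
noncomputable def ex (i j : ℕ) : Fin 2 →₀ ℕ := Finsupp.single 0 i + Finsupp.single 1 j

@[simp] theorem ex_zero (i j : ℕ) : ex i j 0 = i := by simp [ex]
@[simp] theorem ex_one (i j : ℕ) : ex i j 1 = j := by simp [ex]

theorem eq_ex (s : Fin 2 →₀ ℕ) : s = ex (s 0) (s 1) := by
  ext i
  fin_cases i <;> simp

theorem ex_inj {i j k l : ℕ} (h : ex i j = ex k l) : i = k ∧ j = l := by
  have h0 := congrArg (fun s => s 0) h
  have h1 := congrArg (fun s => s 1) h
  simp only [ex_zero, ex_one] at h0 h1
  exact ⟨h0, h1⟩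

theorem ps_monomial (s : Fin 2 →₀ ℕ) (a : K) :
    ps (MvPolynomial.monomial s a) =
      Polynomial.C (Polynomial.C a * Polynomial.X ^ s 1) * Polynomial.X ^ (s 0 + s 1) := by
  rw [ps, MvPolynomial.aeval_monomial, Finsupp.prod_fintype _ _ (by intro i; simp)]
  simp only [Fin.prod_univ_two, Matrix.cons_val_zero, Matrix.cons_val_one]
  have : (algebraMap K K[X][X]) a = Polynomial.C (Polynomial.C a) := rfl
  rw [this, mul_pow, map_mul, map_pow, pow_add]
  ring

theorem coeff_ps (f : P2 K) (N j : ℕ) :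
    ((ps f).coeff N).coeff j = if j ≤ N then f.coeff (ex (N - j) j) else 0 := by
  induction f using MvPolynomial.induction_on' with
  | monomial s a =>
    rw [ps_monomial, Polynomial.coeff_C_mul_X_pow, MvPolynomial.coeff_monomial]
    by_cases h : N = s 0 + s 1
    · rw [if_pos h, Polynomial.coeff_C_mul_X_pow]
      by_cases hj : j = s 1
      · rw [if_pos hj, if_pos (by omega), if_pos]
        rw [eq_ex s, hj, h]
        simp
      · rw [if_neg hj]
        split_ifs with h1 h2
        · exact absurd (by rw [h2]; simp) hj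
        · rfl
        · rfl
    · rw [if_neg h, Polynomial.coeff_zero]
      split_ifs with h1 h2
      · exfalso
        apply h
        rw [h2]
        simp
        omega
      · rfl
      · rfl
  | add p q hp hq =>
    rw [map_add, Polynomial.coeff_add, Polynomial.coeff_add, hp, hq, MvPolynomial.coeff_add]
    split_ifs <;> simp

theorem ps_injective : Function.Injective (ps (K := K)) := by
  rw [injective_iff_map_eq_zero]
  intro f hf
  ext s
  have h := coeff_ps f (s 0 + s 1) (s 1)
  rw [hf, if_pos (by omega), Nat.add_sub_cancel, ← eq_ex s] at h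
  simpa using h.symm

/-- the total degree, as the degree in `z` in the chart -/
noncomputable def dg (f : P2 K) : ℕ := (ps f).natDegree

theorem ps_ne {f : P2 K} (h : f ≠ 0) : ps f ≠ 0 := by
  intro h1
  exact h (ps_injective (by rw [h1, map_zero]))

theorem dg_mul {f g : P2 K} (hf : f ≠ 0) (hg : g ≠ 0) : dg (f * g) = dg f + dg g := by
  rw [dg, map_mul, Polynomial.natDegree_mul (ps_ne hf) (ps_ne hg)]; rfl

theorem dg_add_le (f g : P2 K) : dg (f + g) ≤ max (dg f) (dg g) := by
  rw [dg, map_add]
  exact Polynomial.natDegree_add_le _ _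

theorem dg_add_eq {f g : P2 K} (h : dg f < dg g) : dg (f + g) = dg g := by
  rw [dg, map_add]
  exact Polynomial.natDegree_add_eq_right_of_natDegree_lt h

theorem dg_add_eq' {f g : P2 K} (h : dg g < dg f) : dg (f + g) = dg f := by
  rw [add_comm]; exact dg_add_eq h

@[simp] theorem dg_C (a : K) : dg (MvPolynomial.C a : P2 K) = 0 := by
  rw [dg, ps_C, Polynomial.natDegree_C]

@[simp] theorem dg_x : dg (vx : P2 K) = 1 := by
  rw [dg, ps_x, Polynomial.natDegree_X]

@[simp] theorem dg_y : dg (vy : P2 K) = 1 := by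
  rw [dg, ps_y, Polynomial.natDegree_C_mul_X _ Polynomial.X_ne_zero]

theorem dg_C_mul {a : K} (ha : a ≠ 0) (f : P2 K) : dg (MvPolynomial.C a * f) = dg f := by
  by_cases hf : f = 0
  · simp [hf]
  · rw [dg_mul (by simpa using ha) hf, dg_C, zero_add]

theorem dg_C_mul_le (a : K) (f : P2 K) : dg (MvPolynomial.C a * f) ≤ dg f := by
  by_cases ha : a = 0
  · simp [ha, dg]
  · rw [dg_C_mul ha]

theorem dg_neg (f : P2 K) : dg (-f) = dg f := by
  rw [dg, map_neg, Polynomial.natDegree_neg]; rfl

theorem dg_pow (f : P2 K) (n : ℕ) : dg (f ^ n) = n * dg f := by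
  rw [dg, map_pow, Polynomial.natDegree_pow]; rfl

/-- a polynomial of degree `0` is a constant -/
theorem dg_zero {f : P2 K} (h : dg f = 0) : f = MvPolynomial.C (f.coeff 0) := by
  ext s
  rw [MvPolynomial.coeff_C]
  split_ifs with hs
  · rw [hs]
  · have h1 := coeff_ps f (s 0 + s 1) (s 1)
    rw [if_pos (by omega), Nat.add_sub_cancel, ← eq_ex s] at h1
    have h2 : (ps f).coeff (s 0 + s 1) = 0 := by
      apply Polynomial.coeff_eq_zero_of_natDegree_lt
      have : (ps f).natDegree = 0 := h
      rw [this]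
      by_contra hc
      apply hs
      ext i
      fin_cases i
      · simp; omega
      · simp; omega
    rw [← h1, h2, Polynomial.coeff_zero]

theorem coeff_zero_of_dg_lt {f : P2 K} {s : Fin 2 →₀ ℕ} (h : dg f < s 0 + s 1) :
    f.coeff s = 0 := by
  have h1 := coeff_ps f (s 0 + s 1) (s 1)
  rw [if_pos (by omega), Nat.add_sub_cancel, ← eq_ex s] at h1
  rw [← h1, Polynomial.coeff_eq_zero_of_natDegree_lt h, Polynomial.coeff_zero]

/-- polynomials of degree at most `1` -/
theorem dg_one {f : P2 K} (h : dg f ≤ 1) :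
    ∃ a b c : K, f = MvPolynomial.C a * vx + MvPolynomial.C b * vy + MvPolynomial.C c := by
  refine ⟨f.coeff (ex 1 0), f.coeff (ex 0 1), f.coeff 0, ?_⟩
  ext s
  have e0 : (Finsupp.single 0 1 : Fin 2 →₀ ℕ) = ex 1 0 := by simp [ex]
  have e1 : (Finsupp.single 1 1 : Fin 2 →₀ ℕ) = ex 0 1 := by simp [ex]
  rw [MvPolynomial.coeff_add, MvPolynomial.coeff_add, MvPolynomial.coeff_C_mul,
    MvPolynomial.coeff_C_mul, MvPolynomial.coeff_C, MvPolynomial.coeff_X, MvPolynomial.coeff_X,
    e0, e1]
  by_cases h2 : 2 ≤ s 0 + s 1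
  · rw [coeff_zero_of_dg_lt (by omega)]
    have n0 : ex 1 0 ≠ s := by rintro rfl; simp at h2
    have n1 : ex 0 1 ≠ s := by rintro rfl; simp at h2
    have n2 : (0 : Fin 2 →₀ ℕ) ≠ s := by rintro rfl; simp at h2
    simp [n0, n1, n2]
  · have h3 : s = ex 0 0 ∨ s = ex 1 0 ∨ s = ex 0 1 := by
      rw [eq_ex s]
      rcases (by omega : (s 0 = 0 ∧ s 1 = 0) ∨ (s 0 = 1 ∧ s 1 = 0) ∨ (s 0 = 0 ∧ s 1 = 1)) with
        h | h | h
      · left; rw [h.1, h.2]
      · right; left; rw [h.1, h.2]
      · right; right; rw [h.1, h.2]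
    have z : ex 0 0 = 0 := by simp [ex]
    have n01 : ex 1 0 ≠ ex 0 1 := fun h => by have := (ex_inj h).1; omega
    have n02 : ex 1 0 ≠ 0 := fun h => by rw [← z] at h; have := (ex_inj h).1; omega
    have n12 : ex 0 1 ≠ 0 := fun h => by rw [← z] at h; have := (ex_inj h).2; omega
    rcases h3 with rfl | rfl | rfl
    · rw [z]; simp [n02, n12]
    · simp [n01.symm, n02.symm]
    · simp [n01, n12.symm]

/-- the degree of `p (f)` -/
theorem dg_aeval (p : K[X]) (f : P2 K) : dg (Polynomial.aeval f p) = p.natDegree * dg f := by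
  rw [dg, ← Polynomial.aeval_algHom_apply]
  have h : Polynomial.aeval (ps f) p = (p.map (Polynomial.C : K →+* K[X])).comp (ps f) := by
    rw [Polynomial.comp, Polynomial.eval₂_map, Polynomial.aeval_def]
    rfl
  rw [h, Polynomial.natDegree_comp, Polynomial.natDegree_map_eq_of_injective
    Polynomial.C_injective]
  rfl

end Pool.Agent.W2helper25.PP
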