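import Pool.Agent.W2helper25.PP.Jac

/-!
# The degree estimate
-/

set_option autoImplicit false

namespace Pool.Agent.W2helper25.PP

open Polynomial

variable {K : Type} [Field K]

theorem dg_phi_mon (φ : GA2 K) (s : Fin 2 →₀ ℕ) {c : K} (hc : c ≠ 0) :
    dg (φ (MvPolynomial.monomial s c)) = dg (φ vx) * s 0 + dg (φ vy) * s 1 := by
  have h0 : φ vx ≠ 0 := fun h => by
    have := dg_pos φ (f := vx) (by simp)
    rw [h] at this; simp [dg] at this
  have h1 : φ vy ≠ 0 := fun h => by
    have := dg_pos φ (f := vy) (by simp)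
    rw [h] at this; simp [dg] at this
  have e : (MvPolynomial.monomial s c : P2 K) = MvPolynomial.C c * (vx ^ s 0 * vy ^ s 1) := by
    rw [MvPolynomial.monomial_eq, Finsupp.prod_fintype _ _ (by intro i; simp)]
    simp [Fin.prod_univ_two]
  have e2 : φ (MvPolynomial.C c) = MvPolynomial.C c := φ.commutes c
  rw [e, map_mul, e2, dg_C_mul hc, map_mul, map_pow, map_pow,
    dg_mul (pow_ne_zero _ h0) (pow_ne_zero _ h1), dg_pow, dg_pow]
  ring

theorem dg_phi_le (φ : GA2 K) (N : ℕ) (Q : P2 K)
    (h : ∀ s ∈ Q.support, dg (φ vx) * s 0 + dg (φ vy) * s 1 ≤ N) : dg (φ Q) ≤ N := by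
  have hs : φ Q = ∑ s ∈ Q.support, φ (MvPolynomial.monomial s (Q.coeff s)) := by
    rw [← map_sum, MvPolynomial.support_sum_monomial_coeff]
  rw [hs]
  have key : ∀ T : Finset (Fin 2 →₀ ℕ), (∀ s ∈ T, s ∈ Q.support) →
      dg (∑ s ∈ T, φ (MvPolynomial.monomial s (Q.coeff s))) ≤ N := by
    intro T
    induction T using Finset.induction_on with
    | empty => intro _; simp [dg]
    | insert a T ha ih =>
      intro hT
      rw [Finset.sum_insert ha]
      refine (dg_add_le _ _).trans (max_le ?_ ?_)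
      · rw [dg_phi_mon φ a (by
          have := hT a (Finset.mem_insert_self a T)
          exact MvPolynomial.mem_support_iff.mp this)]
        exact h a (hT a (Finset.mem_insert_self a T))
      · exact ih fun s hs => hT s (Finset.mem_insert_of_mem hs)
  exact key _ fun s hs => hs

/-- the operators `x ∂/∂x - i` -/
noncomputable def Lop (i : ℕ) (Q : P2 K) : P2 K :=
  vx * MvPolynomial.pderiv 0 Q - MvPolynomial.C (i : K) * Q

theorem coeff_Lop (i : ℕ) (Q : P2 K) (s : Fin 2 →₀ ℕ) :
    (Lop i Q).coeff s = ((s 0 : K) - i) * Q.coeff s := by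
  rw [Lop, MvPolynomial.coeff_sub, MvPolynomial.coeff_C_mul, sub_mul]
  congr 1
  induction Q using MvPolynomial.induction_on' with
  | monomial t a =>
    rw [vx, MvPolynomial.X_mul_pderiv_monomial, MvPolynomial.coeff_smul,
      MvPolynomial.coeff_monomial]
    split_ifs with h
    · rw [h]; simp
    · simp
  | add p q hp hq => rw [map_add, mul_add, MvPolynomial.coeff_add, hp, hq,
      MvPolynomial.coeff_add, mul_add]

theorem dg_Lop (φ : GA2 K) (i : ℕ) (Q : P2 K) :
    dg (φ (Lop i Q)) ≤ dg (φ Q) + (dg (φ vx) + dg (φ vy) - 2) := by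
  have e2 : φ (MvPolynomial.C (i : K)) = MvPolynomial.C (i : K) := φ.commutes _
  rw [Lop, map_sub]
  refine (dg_sub_le _ _).trans (max_le (dg_euler φ Q) ?_)
  rw [map_mul, e2]
  exact (dg_C_mul_le _ _).trans (Nat.le_add_right _ _)

/-- several operators -/
noncomputable def Lops (l : List ℕ) (Q : P2 K) : P2 K := l.foldr Lop Q

theorem coeff_Lops (l : List ℕ) (Q : P2 K) (s : Fin 2 →₀ ℕ) :
    (Lops l Q).coeff s = (l.map fun i : ℕ => ((s 0 : K) - (i : K))).prod * Q.coeff s := by
  induction l with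
  | nil => simp [Lops]
  | cons a l ih =>
    have : Lops (a :: l) Q = Lop a (Lops l Q) := rfl
    rw [this, coeff_Lop, ih, List.map_cons, List.prod_cons, mul_assoc]

theorem dg_Lops (φ : GA2 K) (l : List ℕ) (Q : P2 K) :
    dg (φ (Lops l Q)) ≤ dg (φ Q) + l.length * (dg (φ vx) + dg (φ vy) - 2) := by
  induction l with
  | nil => simp [Lops]
  | cons a l ih =>
    have : Lops (a :: l) Q = Lop a (Lops l Q) := rfl
    rw [this, List.length_cons, add_mul, one_mul]
    have := dg_Lop φ a (Lops l Q)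
    omega

/-- **the degree estimate** -/
theorem est [CharZero K] (φ : GA2 K) (p q k : ℕ) (hp : 2 ≤ p) (hq : 2 ≤ q) (hk : 1 ≤ k)
    (hn : dg (φ vx) = p * k) (hm : dg (φ vy) = q * k) (hc : Nat.Coprime p q)
    (P : P2 K) (hP : 1 ≤ dg P) : 2 ≤ dg (φ P) := by
  classical
  obtain ⟨n, hn'⟩ : ∃ n, n = dg (φ vx) := ⟨_, rfl⟩
  obtain ⟨m, hm'⟩ : ∃ m, m = dg (φ vy) := ⟨_, rfl⟩
  have hn2 : 2 ≤ n := by rw [hn', hn]; nlinarith
  have hm2 : 2 ≤ m := by rw [hm', hm]; nlinarith
  -- the weight
  have hne : P.support.Nonempty := by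
    rw [Finset.nonempty_iff_ne_empty]
    intro h
    rw [MvPolynomial.support_eq_empty] at h
    rw [h] at hP
    simp [dg] at hP
  obtain ⟨w, hw⟩ : ∃ w, w = P.support.sup' hne (fun s => n * s 0 + m * s 1) := ⟨_, rfl⟩
  have hle : ∀ s ∈ P.support, n * s 0 + m * s 1 ≤ w := fun s hs => by
    rw [hw]; exact Finset.le_sup' (fun s : Fin 2 →₀ ℕ => n * s 0 + m * s 1) hs
  obtain ⟨s1, hs1, hs1w⟩ : ∃ s ∈ P.support, w = n * s 0 + m * s 1 := by
    obtain ⟨s, hs, h⟩ := Finset.exists_mem_eq_sup' hne (fun s : Fin 2 →₀ ℕ => n * s 0 + m * s 1)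
    exact ⟨s, hs, by rw [hw, h]⟩
  obtain ⟨I, hI⟩ : ∃ I, I = (P.support.filter (fun s => n * s 0 + m * s 1 = w)).image
    (fun s => s 0) := ⟨_, rfl⟩
  have hmemI : ∀ i, i ∈ I ↔ ∃ s ∈ P.support, n * s 0 + m * s 1 = w ∧ s 0 = i := by
    intro i
    rw [hI, Finset.mem_image]
    constructor
    · rintro ⟨s, hs, rfl⟩
      rw [Finset.mem_filter] at hs
      exact ⟨s, hs.1, hs.2, rfl⟩
    · rintro ⟨s, hs, h, rfl⟩
      exact ⟨s, Finset.mem_filter.mpr ⟨hs, h⟩, rfl⟩
  have hIne : I.Nonempty := ⟨s1 0, (hmemI _).mpr ⟨s1, hs1, hs1w.symm, rfl⟩⟩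
  obtain ⟨i0, hi0⟩ : ∃ i0, i0 = I.max' hIne := ⟨_, rfl⟩
  have hi0I : i0 ∈ I := by rw [hi0]; exact Finset.max'_mem _ _
  have hi0max : ∀ i ∈ I, i ≤ i0 := fun i hi => by rw [hi0]; exact Finset.le_max' _ _ hi
  obtain ⟨s0, hs0, hs0w, hs0i⟩ := (hmemI i0).mp hi0I
  obtain ⟨l, hl⟩ : ∃ l, l = (I.erase i0).toList := ⟨_, rfl⟩
  obtain ⟨σ, hσ⟩ : ∃ σ, σ = l.length := ⟨_, rfl⟩
  have hσc : σ + 1 = I.card := by
    rw [hσ, hl, Finset.length_toList, Finset.card_erase_of_mem hi0I]
    have := Finset.card_pos.mpr hIne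
    omega
  have hmeml : ∀ i, i ∈ l ↔ i ≠ i0 ∧ i ∈ I := fun i => by
    rw [hl, Finset.mem_toList, Finset.mem_erase]
  -- the lower bound for the degree
  have hlow : w ≤ dg (φ (Lops l P)) := by
    obtain ⟨c, hcdef⟩ : ∃ c, c = (Lops l P).coeff s0 := ⟨_, rfl⟩
    have hc0 : c ≠ 0 := by
      rw [hcdef, coeff_Lops]
      refine mul_ne_zero ?_ (MvPolynomial.mem_support_iff.mp hs0)
      intro h
      rw [List.prod_eq_zero_iff, List.mem_map] at h
      obtain ⟨i, hi, h⟩ := h
      rw [sub_eq_zero] at h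
      have : s0 0 = i := by exact_mod_cast h
      exact ((hmeml i).mp hi).1 (by rw [← this, hs0i])
    obtain ⟨Q, hQ⟩ : ∃ Q, Q = Lops l P - MvPolynomial.monomial s0 c := ⟨_, rfl⟩
    have hQs : ∀ s ∈ Q.support, dg (φ vx) * s 0 + dg (φ vy) * s 1 ≤ w - 1 := by
      intro s hs
      rw [← hn', ← hm']
      rw [MvPolynomial.mem_support_iff, hQ, MvPolynomial.coeff_sub,
        MvPolynomial.coeff_monomial] at hs
      have hss0 : s ≠ s0 := by
        intro h
        apply hs
        rw [h, if_pos rfl, hcdef, sub_self]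
      rw [if_neg (Ne.symm hss0), sub_zero, coeff_Lops] at hs
      have h1 : s ∈ P.support := MvPolynomial.mem_support_iff.mpr (right_ne_zero_of_mul hs)
      have h2 := hle s h1
      by_contra hcon
      have h3 : n * s 0 + m * s 1 = w := by omega
      have h4 : s 0 ∈ I := (hmemI _).mpr ⟨s, h1, h3, rfl⟩
      have h5 : s 0 = i0 := by
        by_contra h5
        have h6 := left_ne_zero_of_mul hs
        apply h6
        rw [List.prod_eq_zero_iff, List.mem_map]
        exact ⟨s 0, (hmeml _).mpr ⟨h5, h4⟩, sub_self _⟩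
      apply hss0
      rw [eq_ex s, eq_ex s0]
      have h6 : s 0 = s0 0 := by rw [h5, hs0i]
      have h7 : s 1 = s0 1 := by
        rw [h6] at h3
        have : m * s 1 = m * s0 1 := by omega
        exact Nat.eq_of_mul_eq_mul_left (by omega) this
      rw [h6, h7]
    have h1 := dg_phi_le φ (w - 1) Q hQs
    have h2 := dg_phi_mon φ s0 hc0
    rw [← hn', ← hm', hs0w] at h2
    have h3 : φ (Lops l P) = φ Q + φ (MvPolynomial.monomial s0 c) := by
      rw [← map_add, hQ, sub_add_cancel]
    by_cases hw0 : w = 0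
    · omega
    · rw [h3, dg_add_eq (by omega), h2]
  -- the number of exponents
  have hcount : q * σ ≤ i0 := by
    have h1 : I.card ≤ (Finset.range (i0 / q + 1)).card := by
      apply Finset.card_le_card_of_injOn (fun i => (i0 - i) / q)
      · intro i hi
        rw [Finset.mem_coe, Finset.mem_range]
        have := Nat.div_le_div_right (c := q) (Nat.sub_le i0 i)
        show (i0 - i) / q < i0 / q + 1
        omega
      · have hdvd : ∀ i ∈ I, q ∣ i0 - i := by
          intro i hi
          obtain ⟨s, hs, hsw, hsi⟩ := (hmemI i).mp hi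
          have h2 := hi0max i hi
          have h3 : n * s 0 + m * s 1 = n * s0 0 + m * s0 1 := by rw [hsw, hs0w]
          rw [hsi, hs0i, hn', hm', hn, hm] at h3
          have h4 : p * (i0 - i) = q * (s 1 - s0 1) := by
            have h5 : k * (p * i + q * s 1) = k * (p * i0 + q * s0 1) := by
              calc _ = p * k * i + q * k * s 1 := by ring
                _ = _ := h3
                _ = _ := by ring
            have h6 := Nat.eq_of_mul_eq_mul_left (by omega) h5
            obtain ⟨d, hd⟩ : ∃ d, i0 = i + d := ⟨i0 - i, by omega⟩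
            subst hd
            have h7 : q * s 1 = p * d + q * s0 1 := by
              have : p * i + q * s 1 = p * i + (p * d + q * s0 1) := by rw [h6]; ring
              omega
            have h8 : s0 1 ≤ s 1 := by
              by_contra h8
              have : q * s 1 < q * s0 1 := Nat.mul_lt_mul_of_pos_left (by omega) (by omega)
              omega
            obtain ⟨e, he⟩ : ∃ e, s 1 = s0 1 + e := ⟨s 1 - s0 1, by omega⟩
            rw [he] at h7 ⊢
            simp only [Nat.add_sub_cancel_left]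
            have : q * s0 1 + q * e = p * d + q * s0 1 := by rw [← h7]; ring
            omega
          exact hc.symm.dvd_of_dvd_mul_left ⟨_, h4⟩
        intro i hi j hj hij
        have hi' := hi0max i hi
        have hj' := hi0max j hj
        obtain ⟨a, ha⟩ := hdvd i hi
        obtain ⟨b, hb⟩ := hdvd j hj
        have hij' : (i0 - i) / q = (i0 - j) / q := hij
        rw [ha, hb, Nat.mul_div_cancel_left _ (by omega), Nat.mul_div_cancel_left _ (by omega)]
          at hij'
        rw [hij'] at ha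
        omega
    rw [Finset.card_range, ← hσc] at h1
    have h2 : σ ≤ i0 / q := by omega
    calc q * σ ≤ q * (i0 / q) := Nat.mul_le_mul_left _ h2
      _ ≤ i0 := Nat.mul_div_le _ _
  by_contra hcon
  have hup := dg_Lops φ l P
  rw [← hn', ← hm', ← hσ] at hup
  rcases Nat.eq_zero_or_pos σ with h0 | h0
  · -- a single exponent
    rw [h0, zero_mul, add_zero] at hup
    have hw1 : w ≤ 1 := by omega
    have : ∀ s ∈ P.support, s = 0 := by
      intro s hs
      have h1 := hle s hs
      ext i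
      by_contra h2
      fin_cases i
      · have h3 : s 0 ≠ 0 := h2
        have : 2 * 1 ≤ n * s 0 := Nat.mul_le_mul hn2 (by omega)
        omega
      · have h3 : s 1 ≠ 0 := h2
        have : 2 * 1 ≤ m * s 1 := Nat.mul_le_mul hm2 (by omega)
        omega
    have hPc : P = MvPolynomial.C (P.coeff 0) := by
      ext s
      rw [MvPolynomial.coeff_C]
      split_ifs with hs
      · rw [hs]
      · by_contra h2
        exact hs (this s (MvPolynomial.mem_support_iff.mpr h2)).symm
    rw [hPc, dg_C] at hP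
    omega
  · have h1 : (n + m) * σ ≤ w := by
      have h2 : n + m ≤ n * q := by
        rw [hn', hm', hn, hm]
        obtain ⟨a, rfl⟩ : ∃ a, p = a + 2 := ⟨p - 2, by omega⟩
        obtain ⟨b, rfl⟩ : ∃ b, q = b + 2 := ⟨q - 2, by omega⟩
        nlinarith [Nat.zero_le (a * b * k), Nat.zero_le (a * k), Nat.zero_le (b * k)]
      calc (n + m) * σ ≤ (n * q) * σ := Nat.mul_le_mul_right _ h2
        _ = n * (q * σ) := by ring
        _ ≤ n * i0 := Nat.mul_le_mul_left _ hcount
        _ ≤ w := by rw [← hs0w, hs0i]; exact Nat.le_add_right _ _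
    have h3 : (n + m) * σ = σ * (n + m - 2) + 2 * σ := by
      obtain ⟨a, ha⟩ : ∃ a, n + m = a + 2 := ⟨n + m - 2, by omega⟩
      rw [ha, Nat.add_sub_cancel]; ring
    omega

end Pool.Agent.W2helper25.PP
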