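import Pool.Agent.W2helper25.PP.Jac

/-!
# Affine and triangular automorphisms of the plane
-/

set_option autoImplicit false

namespace Pool.Agent.W2helper25.PP

open Polynomial

variable {K : Type} [Field K]

/-- the polynomial `a x + b y + c` -/
noncomputable def lin (a b c : K) : P2 K :=
  MvPolynomial.C a * vx + MvPolynomial.C b * vy + MvPolynomial.C c

/-- the polynomial `a x + p (y)` -/
noncomputable def tri (a : K) (p : K[X]) : P2 K :=
  MvPolynomial.C a * vx + Polynomial.aeval vy p

theorem dg_lin (a b c : K) : dg (lin a b c) ≤ 1 := by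
  rw [lin]
  refine (dg_add_le _ _).trans (max_le ((dg_add_le _ _).trans (max_le ?_ ?_)) ?_)
  · exact (dg_C_mul_le _ _).trans (by simp)
  · exact (dg_C_mul_le _ _).trans (by simp)
  · simp

theorem map_C (φ : GA2 K) (a : K) : φ (MvPolynomial.C a) = MvPolynomial.C a := φ.commutes a

theorem map_lin (φ : GA2 K) (a b c : K) :
    φ (lin a b c) = MvPolynomial.C a * φ vx + MvPolynomial.C b * φ vy + MvPolynomial.C c := by
  rw [lin, map_add, map_add, map_mul, map_mul, map_C, map_C, map_C]

theorem map_tri (φ : GA2 K) (a : K) (p : K[X]) :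
    φ (tri a p) = MvPolynomial.C a * φ vx + Polynomial.aeval (φ vy) p := by
  rw [tri, map_add, map_mul, map_C, ← Polynomial.aeval_algHom_apply]

theorem aeval_lin (b c : K) (p : K[X]) :
    Polynomial.aeval (lin 0 b c) p =
      Polynomial.aeval vy (p.comp (Polynomial.C b * Polynomial.X + Polynomial.C c)) := by
  rw [Polynomial.aeval_comp]
  congr 1
  simp [lin, Polynomial.aeval_def, MvPolynomial.algebraMap_eq]

theorem natDegree_comp_le (b c : K) (p : K[X]) :
    (p.comp (Polynomial.C b * Polynomial.X + Polynomial.C c)).natDegree ≤ p.natDegree := by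
  rw [Polynomial.natDegree_comp]
  calc p.natDegree * _ ≤ p.natDegree * 1 :=
        Nat.mul_le_mul_left _ (Polynomial.natDegree_linear_le)
    _ = _ := mul_one _

theorem inv_eq {φ : GA2 K} {f g : P2 K} (h : φ g = f) : φ⁻¹ f = g := by
  rw [← h]; exact φ.symm_apply_apply g

theorem ext2 {φ χ : GA2 K} (hx : φ vx = χ vx) (hy : φ vy = χ vy) : φ = χ := by
  have : (φ : P2 K →ₐ[K] P2 K) = χ := by
    apply MvPolynomial.algHom_ext
    intro i
    fin_cases i
    · exact hx
    · exact hy
  exact AlgEquiv.ext fun f => congrArg (fun θ : P2 K →ₐ[K] P2 K => θ f) this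

/-- the affine automorphisms -/
noncomputable def Aff (K : Type) [Field K] : Subgroup (GA2 K) where
  carrier := {φ | (∃ a b c : K, φ vx = lin a b c) ∧ ∃ a b c : K, φ vy = lin a b c}
  one_mem' := ⟨⟨1, 0, 0, by simp [lin]⟩, ⟨0, 1, 0, by simp [lin]⟩⟩
  mul_mem' := by
    rintro φ χ ⟨⟨a, b, c, h1⟩, a', b', c', h2⟩ ⟨⟨u, v, w, h3⟩, u', v', w', h4⟩
    refine ⟨⟨u * a + v * a', u * b + v * b', u * c + v * c' + w, ?_⟩,
      u' * a + v' * a', u' * b + v' * b', u' * c + v' * c' + w', ?_⟩
    · rw [AlgEquiv.mul_apply, h3, map_lin, h1, h2]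
      simp only [lin, map_add, map_mul]; ring
    · rw [AlgEquiv.mul_apply, h4, map_lin, h1, h2]
      simp only [lin, map_add, map_mul]; ring
  inv_mem' := by
    rintro φ ⟨⟨a, b, c, h1⟩, a', b', c', h2⟩
    have hD : a * b' - b * a' ≠ 0 := by
      intro h
      -- a linear combination of the images is constant
      by_cases h3 : a' = 0 ∧ b' = 0
      · have := dg_pos φ (f := vy) (by simp)
        rw [h2, h3.1, h3.2] at this
        simp [lin] at this
      · have e : φ (MvPolynomial.C a' * vx - MvPolynomial.C a * vy) =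
            MvPolynomial.C (a' * c - a * c') := by
          rw [map_sub, map_mul, map_mul, map_C, map_C, h1, h2]
          have h4 : (MvPolynomial.C (a * b' - b * a') : P2 K) = 0 := by rw [h, MvPolynomial.C_0]
          simp only [lin, map_sub, map_mul] at h4 ⊢
          linear_combination (-vy) * h4
        have e' : φ (MvPolynomial.C b' * vx - MvPolynomial.C b * vy) =
            MvPolynomial.C (b' * c - b * c') := by
          rw [map_sub, map_mul, map_mul, map_C, map_C, h1, h2]
          have h4 : (MvPolynomial.C (a * b' - b * a') : P2 K) = 0 := by rw [h, MvPolynomial.C_0]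
          simp only [lin, map_sub, map_mul] at h4 ⊢
          linear_combination (vx) * h4
        have key : ∀ (r s t : K), φ (MvPolynomial.C r * vx - MvPolynomial.C s * vy) =
            MvPolynomial.C t → r = 0 := by
          intro r s t h5
          have h6 : (MvPolynomial.C r * vx - MvPolynomial.C s * vy : P2 K) =
              MvPolynomial.C t := by
            apply φ.injective
            rw [h5, map_C]
          have h7 := congrArg (fun f : P2 K => MvPolynomial.coeff (ex 1 0) f) h6
          simp only [MvPolynomial.coeff_sub, MvPolynomial.coeff_C_mul, MvPolynomial.coeff_C,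
            MvPolynomial.coeff_X] at h7
          have e0 : (Finsupp.single 0 1 : Fin 2 →₀ ℕ) = ex 1 0 := by simp [ex]
          have e1 : (Finsupp.single 1 1 : Fin 2 →₀ ℕ) = ex 0 1 := by simp [ex]
          have z : ex 0 0 = 0 := by simp [ex]
          have n01 : ex 0 1 ≠ ex 1 0 := fun h => by have := (ex_inj h).1; omega
          have n02 : (0 : Fin 2 →₀ ℕ) ≠ ex 1 0 := fun h => by
            rw [← z] at h; have := (ex_inj h).1; omega
          rw [e0, e1, if_pos rfl, if_neg n01, if_neg n02] at h7
          simpa using h7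
        exact h3 ⟨key _ _ _ e, key _ _ _ e'⟩
    refine ⟨⟨b' / (a * b' - b * a'), - b / (a * b' - b * a'),
        (b * c' - b' * c) / (a * b' - b * a'), ?_⟩,
      - a' / (a * b' - b * a'), a / (a * b' - b * a'),
        (a' * c - a * c') / (a * b' - b * a'), ?_⟩
    · apply inv_eq
      rw [map_lin, h1, h2]
      have e1 : b' / (a * b' - b * a') * a + - b / (a * b' - b * a') * a' = 1 := by
        rw [div_mul_eq_mul_div, div_mul_eq_mul_div, ← add_div, div_eq_one_iff_eq hD]; ring
      have e2 : b' / (a * b' - b * a') * b + - b / (a * b' - b * a') * b' = 0 := by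
        field_simp; ring
      have e3 : b' / (a * b' - b * a') * c + - b / (a * b' - b * a') * c' +
          (b * c' - b' * c) / (a * b' - b * a') = 0 := by
        field_simp; ring
      have f1 := congrArg (MvPolynomial.C : K → P2 K) e1
      have f2 := congrArg (MvPolynomial.C : K → P2 K) e2
      have f3 := congrArg (MvPolynomial.C : K → P2 K) e3
      simp only [lin, map_add, map_mul, map_one, map_zero] at f1 f2 f3 ⊢
      linear_combination vx * f1 + vy * f2 + f3
    · apply inv_eq
      rw [map_lin, h1, h2]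
      have e1 : - a' / (a * b' - b * a') * a + a / (a * b' - b * a') * a' = 0 := by
        field_simp; ring
      have e2 : - a' / (a * b' - b * a') * b + a / (a * b' - b * a') * b' = 1 := by
        rw [div_mul_eq_mul_div, div_mul_eq_mul_div, ← add_div, div_eq_one_iff_eq hD]; ring
      have e3 : - a' / (a * b' - b * a') * c + a / (a * b' - b * a') * c' +
          (a' * c - a * c') / (a * b' - b * a') = 0 := by
        field_simp; ring
      have f1 := congrArg (MvPolynomial.C : K → P2 K) e1
      have f2 := congrArg (MvPolynomial.C : K → P2 K) e2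
      have f3 := congrArg (MvPolynomial.C : K → P2 K) e3
      simp only [lin, map_add, map_mul, map_one, map_zero] at f1 f2 f3 ⊢
      linear_combination vx * f1 + vy * f2 + f3

theorem mem_Aff {φ : GA2 K} : φ ∈ Aff K ↔ dg (φ vx) ≤ 1 ∧ dg (φ vy) ≤ 1 := by
  constructor
  · rintro ⟨⟨a, b, c, h1⟩, a', b', c', h2⟩
    rw [h1, h2]
    exact ⟨dg_lin _ _ _, dg_lin _ _ _⟩
  · rintro ⟨h1, h2⟩
    exact ⟨dg_one h1, dg_one h2⟩

/-- the triangular automorphisms `x ↦ a x + p (y)`, `y ↦ b y + c`, `p` of degree at most `d` -/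
noncomputable def Trd (K : Type) [Field K] (d : ℕ) : Subgroup (GA2 K) where
  carrier := {φ | ∃ (a b c : K) (p : K[X]), a ≠ 0 ∧ b ≠ 0 ∧ p.natDegree ≤ d ∧
    φ vx = tri a p ∧ φ vy = lin 0 b c}
  one_mem' := ⟨1, 1, 0, 0, one_ne_zero, one_ne_zero, by simp, by simp [tri], by simp [lin]⟩
  mul_mem' := by
    rintro φ χ ⟨a, b, c, p, ha, hb, hp, h1, h2⟩ ⟨a', b', c', p', ha', hb', hp', h3, h4⟩
    refine ⟨a' * a, b' * b, b' * c + c', Polynomial.C a' * p +
      p'.comp (Polynomial.C b * Polynomial.X + Polynomial.C c), mul_ne_zero ha' ha,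
      mul_ne_zero hb' hb, ?_, ?_, ?_⟩
    · refine (Polynomial.natDegree_add_le _ _).trans (max_le ?_ ?_)
      · exact (Polynomial.natDegree_C_mul_le _ _).trans hp
      · exact (natDegree_comp_le _ _ _).trans hp'
    · rw [AlgEquiv.mul_apply, h3, map_tri, h1, h2, aeval_lin]
      simp only [tri, map_add, map_mul, Polynomial.aeval_C, MvPolynomial.algebraMap_eq]
      ring
    · rw [AlgEquiv.mul_apply, h4, map_lin, h2]
      simp only [lin, map_add, map_mul, map_zero]
      ring
  inv_mem' := by
    rintro φ ⟨a, b, c, p, ha, hb, hp, h1, h2⟩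
    refine ⟨a⁻¹, b⁻¹, - (b⁻¹ * c), - (Polynomial.C a⁻¹ *
      p.comp (Polynomial.C b⁻¹ * Polynomial.X + Polynomial.C (- (b⁻¹ * c)))), inv_ne_zero ha,
      inv_ne_zero hb, ?_, ?_, ?_⟩
    · rw [Polynomial.natDegree_neg]
      exact (Polynomial.natDegree_C_mul_le _ _).trans ((natDegree_comp_le _ _ _).trans hp)
    · apply inv_eq
      rw [map_tri, h1, h2]
      have e1 : (MvPolynomial.C a⁻¹ * MvPolynomial.C a : P2 K) = 1 := by
        rw [← map_mul, inv_mul_cancel₀ ha, map_one]
      have e2 : Polynomial.aeval (lin 0 b c) (Polynomial.C b⁻¹ * Polynomial.X +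
          Polynomial.C (- (b⁻¹ * c))) = vy := by
        simp only [map_add, map_mul, Polynomial.aeval_C, Polynomial.aeval_X,
          MvPolynomial.algebraMap_eq, lin, map_neg, map_zero]
        have e3 : (MvPolynomial.C b⁻¹ * MvPolynomial.C b : P2 K) = 1 := by
          rw [← map_mul, inv_mul_cancel₀ hb, map_one]
        linear_combination vy * e3
      rw [map_neg, map_mul, Polynomial.aeval_comp, e2, Polynomial.aeval_C,
        MvPolynomial.algebraMap_eq, tri]
      linear_combination vx * e1
    · apply inv_eq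
      rw [map_lin, h2]
      have e3 : (MvPolynomial.C b⁻¹ * MvPolynomial.C b : P2 K) = 1 := by
        rw [← map_mul, inv_mul_cancel₀ hb, map_one]
      simp only [lin, map_zero, map_neg, map_mul]
      linear_combination vy * e3

theorem Trd_mono {d e : ℕ} (h : d ≤ e) : Trd K d ≤ Trd K e := by
  rintro φ ⟨a, b, c, p, ha, hb, hp, h1, h2⟩
  exact ⟨a, b, c, p, ha, hb, hp.trans h, h1, h2⟩

/-- the elementary automorphism `x ↦ x + q (y)`, `y ↦ y` -/
noncomputable def elem (q : K[X]) : GA2 K :=
  AlgEquiv.ofAlgHom (MvPolynomial.aeval ![vx + Polynomial.aeval vy q, vy])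
    (MvPolynomial.aeval ![vx - Polynomial.aeval vy q, vy])
    (by
      apply MvPolynomial.algHom_ext
      intro i
      fin_cases i
      · simp [← Polynomial.aeval_algHom_apply]
      · simp)
    (by
      apply MvPolynomial.algHom_ext
      intro i
      fin_cases i
      · simp [← Polynomial.aeval_algHom_apply]
      · simp)

theorem elem_x (q : K[X]) : elem q vx = tri 1 q := by
  simp [elem, tri]

theorem elem_y (q : K[X]) : elem q vy = (vy : P2 K) := by
  simp [elem]

theorem vy_eq_lin : (vy : P2 K) = lin 0 1 0 := by simp [lin]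
theorem vx_eq_lin : (vx : P2 K) = lin 1 0 0 := by simp [lin]

theorem elem_mem (q : K[X]) : elem q ∈ Trd K q.natDegree :=
  ⟨1, 1, 0, q, one_ne_zero, one_ne_zero, le_refl _, elem_x q, by rw [elem_y, ← vy_eq_lin]⟩

/-- the automorphism that exchanges `x` and `y` -/
noncomputable def swp : GA2 K :=
  AlgEquiv.ofAlgHom (MvPolynomial.aeval ![vy, vx]) (MvPolynomial.aeval ![vy, vx])
    (by
      apply MvPolynomial.algHom_ext
      intro i
      fin_cases i <;> simp)
    (by
      apply MvPolynomial.algHom_ext
      intro i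
      fin_cases i <;> simp)

theorem swp_x : swp vx = (vy : P2 K) := by simp [swp]
theorem swp_y : swp vy = (vx : P2 K) := by simp [swp]

theorem swp_mem : swp ∈ Aff K := ⟨⟨0, 1, 0, by rw [swp_x, vy_eq_lin]⟩,
  1, 0, 0, by rw [swp_y, vx_eq_lin]⟩

end Pool.Agent.W2helper25.PP
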