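import Pool.Agent.W2helper25.PP.Deg

/-!
# Jacobians of polynomials in two variables
-/

set_option autoImplicit false

namespace Pool.Agent.W2helper25.PP

open Polynomial

variable {K : Type} [Field K]

/-- the group of the `K`-algebra automorphisms of the polynomial ring in two variables -/
abbrev GA2 (K : Type) [Field K] : Type := P2 K ≃ₐ[K] P2 K

/-- the coefficients of the derivative with respect to `y` in the chart -/
theorem coeff_dy (f : P2 K) (N : ℕ) :
    (ps (MvPolynomial.pderiv 1 f)).coeff N = Polynomial.derivative ((ps f).coeff (N + 1)) := by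
  induction f using MvPolynomial.induction_on' with
  | monomial s a =>
    rw [MvPolynomial.pderiv_monomial, ps_monomial, ps_monomial, Polynomial.coeff_C_mul_X_pow,
      Polynomial.coeff_C_mul_X_pow]
    rcases Nat.eq_zero_or_pos (s 1) with h | h
    · rw [h]
      simp only [Nat.cast_zero, mul_zero, map_zero, zero_mul, ite_self, pow_zero, mul_one]
      split_ifs <;> simp
    · have e0 : (s - (Finsupp.single 1 1 : Fin 2 →₀ ℕ)) 0 = s 0 := by simp
      have e1 : (s - (Finsupp.single 1 1 : Fin 2 →₀ ℕ)) 1 = s 1 - 1 := by simp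
      rw [e0, e1]
      by_cases hN : N + 1 = s 0 + s 1
      · rw [if_pos hN, if_pos (by omega)]
        simp only [Polynomial.derivative_mul, Polynomial.derivative_C, zero_mul, zero_add,
          Polynomial.derivative_X_pow, map_mul, Polynomial.C_eq_natCast, map_natCast]
        ring
      · rw [if_neg hN, if_neg (by omega), Polynomial.derivative_zero]
  | add p q hp hq => simp only [map_add, Polynomial.coeff_add, hp, hq]

/-- the coefficients of the derivative with respect to `x` in the chart -/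
theorem coeff_dx (f : P2 K) (N : ℕ) :
    (ps (MvPolynomial.pderiv 0 f)).coeff N = (N + 1 : K[X]) * (ps f).coeff (N + 1) -
      Polynomial.X * Polynomial.derivative ((ps f).coeff (N + 1)) := by
  induction f using MvPolynomial.induction_on' with
  | monomial s a =>
    rw [MvPolynomial.pderiv_monomial, ps_monomial, ps_monomial, Polynomial.coeff_C_mul_X_pow,
      Polynomial.coeff_C_mul_X_pow]
    have e0 : (s - (Finsupp.single 0 1 : Fin 2 →₀ ℕ)) 0 = s 0 - 1 := by simp
    have e1 : (s - (Finsupp.single 0 1 : Fin 2 →₀ ℕ)) 1 = s 1 := by simp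
    rw [e0, e1]
    by_cases hN : N + 1 = s 0 + s 1
    · rw [if_pos hN]
      have hd : Polynomial.X * Polynomial.derivative (Polynomial.C a * Polynomial.X ^ s 1) =
          (s 1 : K[X]) * (Polynomial.C a * Polynomial.X ^ s 1) := by
        rcases Nat.eq_zero_or_pos (s 1) with h | h
        · rw [h]; simp
        · obtain ⟨k, hk⟩ : ∃ k, s 1 = k + 1 := ⟨s 1 - 1, by omega⟩
          rw [hk]
          simp only [Polynomial.derivative_mul, Polynomial.derivative_C, zero_mul, zero_add,
            Polynomial.derivative_X_pow, Nat.add_sub_cancel, map_natCast]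
          push_cast
          ring
      have hs : (N + 1 : K[X]) = (s 0 : K[X]) + (s 1 : K[X]) := by
        exact_mod_cast congrArg (Nat.cast : ℕ → K[X]) hN
      rw [hd, hs]
      rcases Nat.eq_zero_or_pos (s 0) with h | h
      · rw [h]; simp
      · rw [if_pos (by omega)]
        simp only [map_mul, map_natCast]
        ring
    · rw [if_neg hN]
      rcases Nat.eq_zero_or_pos (s 0) with h | h
      · rw [h]; simp
      · rw [if_neg (by omega)]; simp
  | add p q hp hq =>
    simp only [map_add, Polynomial.coeff_add, hp, hq]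
    ring

theorem dg_dy (f : P2 K) : dg (MvPolynomial.pderiv 1 f) ≤ dg f - 1 := by
  rw [dg, Polynomial.natDegree_le_iff_coeff_eq_zero]
  intro N hN
  rw [coeff_dy, Polynomial.coeff_eq_zero_of_natDegree_lt (by rw [dg] at hN; omega),
    Polynomial.derivative_zero]

theorem dg_dx (f : P2 K) : dg (MvPolynomial.pderiv 0 f) ≤ dg f - 1 := by
  rw [dg, Polynomial.natDegree_le_iff_coeff_eq_zero]
  intro N hN
  rw [coeff_dx, Polynomial.coeff_eq_zero_of_natDegree_lt (by rw [dg] at hN; omega),
    Polynomial.derivative_zero]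
  simp

/-- the Jacobian determinant -/
noncomputable def Jc (u v : P2 K) : P2 K :=
  MvPolynomial.pderiv 0 u * MvPolynomial.pderiv 1 v -
    MvPolynomial.pderiv 1 u * MvPolynomial.pderiv 0 v

theorem dg_mul_le (f g : P2 K) : dg (f * g) ≤ dg f + dg g := by
  rw [dg, map_mul]; exact Polynomial.natDegree_mul_le

theorem dg_sub_le (f g : P2 K) : dg (f - g) ≤ max (dg f) (dg g) := by
  rw [sub_eq_add_neg]
  exact (dg_add_le _ _).trans (by rw [dg_neg])

theorem dg_Jc (u v : P2 K) : dg (Jc u v) ≤ (dg u - 1) + (dg v - 1) := by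
  refine (dg_sub_le _ _).trans (max_le ?_ ?_)
  · exact (dg_mul_le _ _).trans (add_le_add (dg_dx u) (dg_dy v))
  · exact (dg_mul_le _ _).trans (add_le_add (dg_dy u) (dg_dx v))

/-- the leading coefficient of the Jacobian -/
theorem coeff_Jc (u v : P2 K) (n m : ℕ) (hn : dg u = n + 1) (hm : dg v = m + 1) :
    (ps (Jc u v)).coeff (n + m) =
      (n + 1 : K[X]) * (ps u).coeff (n + 1) * Polynomial.derivative ((ps v).coeff (m + 1)) -
      (m + 1 : K[X]) * Polynomial.derivative ((ps u).coeff (n + 1)) * (ps v).coeff (m + 1) := by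
  have h1 : (ps (MvPolynomial.pderiv 0 u)).natDegree ≤ n := by
    have := dg_dx u; rw [hn] at this; exact this
  have h2 : (ps (MvPolynomial.pderiv 1 u)).natDegree ≤ n := by
    have := dg_dy u; rw [hn] at this; exact this
  have h3 : (ps (MvPolynomial.pderiv 0 v)).natDegree ≤ m := by
    have := dg_dx v; rw [hm] at this; exact this
  have h4 : (ps (MvPolynomial.pderiv 1 v)).natDegree ≤ m := by
    have := dg_dy v; rw [hm] at this; exact this
  rw [Jc, map_sub, map_mul, map_mul, Polynomial.coeff_sub,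
    Polynomial.coeff_mul_add_eq_of_natDegree_le h1 h4,
    Polynomial.coeff_mul_add_eq_of_natDegree_le h2 h3, coeff_dx, coeff_dy, coeff_dx, coeff_dy]
  ring

theorem chain (θ : P2 K →ₐ[K] P2 K) (i : Fin 2) (u : P2 K) :
    MvPolynomial.pderiv i (θ u) =
      θ (MvPolynomial.pderiv 0 u) * MvPolynomial.pderiv i (θ vx) +
      θ (MvPolynomial.pderiv 1 u) * MvPolynomial.pderiv i (θ vy) := by
  induction u using MvPolynomial.induction_on with
  | C a =>
    have : θ (MvPolynomial.C a) = MvPolynomial.C a := θ.commutes a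
    simp [this]
  | add p q hp hq =>
    simp only [map_add, hp, hq]
    ring
  | mul_X p j hp =>
    rw [map_mul, Derivation.leibniz, hp, Derivation.leibniz, Derivation.leibniz]
    simp only [smul_eq_mul, map_add, map_mul]
    fin_cases j
    · have e1 : MvPolynomial.pderiv (1 : Fin 2) (MvPolynomial.X 0 : P2 K) = 0 :=
        MvPolynomial.pderiv_X_of_ne (by decide)
      simp only [Fin.zero_eta, MvPolynomial.pderiv_X_self, e1, map_zero, map_one, mul_zero,
        zero_add, mul_one]
      ring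
    · have e1 : MvPolynomial.pderiv (0 : Fin 2) (MvPolynomial.X 1 : P2 K) = 0 :=
        MvPolynomial.pderiv_X_of_ne (by decide)
      simp only [Fin.mk_one, MvPolynomial.pderiv_X_self, e1, map_zero, map_one, mul_zero,
        zero_add, mul_one]
      ring

theorem Jc_chain (θ : P2 K →ₐ[K] P2 K) (u v : P2 K) :
    Jc (θ u) (θ v) = θ (Jc u v) * Jc (θ vx) (θ vy) := by
  simp only [Jc, map_sub, map_mul]
  rw [chain θ 0 u, chain θ 1 u, chain θ 0 v, chain θ 1 v]
  ring

theorem Jc_xy : Jc (vx : P2 K) vy = 1 := by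
  have e1 : MvPolynomial.pderiv (0 : Fin 2) (MvPolynomial.X 1 : P2 K) = 0 :=
    MvPolynomial.pderiv_X_of_ne (by decide)
  have e2 : MvPolynomial.pderiv (1 : Fin 2) (MvPolynomial.X 0 : P2 K) = 0 :=
    MvPolynomial.pderiv_X_of_ne (by decide)
  simp only [Jc, vx, vy, MvPolynomial.pderiv_X_self, e1, e2]
  ring

theorem Jc_y (u : P2 K) : Jc u vy = MvPolynomial.pderiv 0 u := by
  have e1 : MvPolynomial.pderiv (0 : Fin 2) (MvPolynomial.X 1 : P2 K) = 0 :=
    MvPolynomial.pderiv_X_of_ne (by decide)
  simp only [Jc, vy, MvPolynomial.pderiv_X_self, e1]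
  ring

/-- the Jacobian of an automorphism is a constant -/
theorem Jc_const (φ : GA2 K) : ∃ c : K, c ≠ 0 ∧ Jc (φ vx) (φ vy) = MvPolynomial.C c := by
  have h := Jc_chain (φ : P2 K →ₐ[K] P2 K) (φ.symm vx) (φ.symm vy)
  have e1 : (φ : P2 K →ₐ[K] P2 K) (φ.symm vx) = vx := φ.apply_symm_apply _
  have e2 : (φ : P2 K →ₐ[K] P2 K) (φ.symm vy) = vy := φ.apply_symm_apply _
  rw [e1, e2, Jc_xy] at h
  have h0 : Jc ((φ : P2 K →ₐ[K] P2 K) vx) ((φ : P2 K →ₐ[K] P2 K) vy) ≠ 0 := by
    intro h1
    rw [h1, mul_zero] at h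
    exact one_ne_zero h
  have h2 : (φ : P2 K →ₐ[K] P2 K) (Jc (φ.symm vx) (φ.symm vy)) ≠ 0 := by
    intro h1
    rw [h1, zero_mul] at h
    exact one_ne_zero h
  have h3 := congrArg dg h
  rw [dg_mul h2 h0] at h3
  have h4 : dg (1 : P2 K) = 0 := by rw [← MvPolynomial.C_1, dg_C]
  have h5 := dg_zero (f := Jc (φ vx) (φ vy)) (by
    change dg (Jc ((φ : P2 K →ₐ[K] P2 K) vx) ((φ : P2 K →ₐ[K] P2 K) vy)) = 0
    omega)
  refine ⟨_, ?_, h5⟩
  intro h6
  apply h0
  change Jc (φ vx) (φ vy) = 0
  rw [h5, h6, MvPolynomial.C_0]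

theorem dg_pos (φ : GA2 K) {f : P2 K} (h : 1 ≤ dg f) : 1 ≤ dg (φ f) := by
  by_contra hc
  have h1 := dg_zero (f := φ f) (by omega)
  have h2 : f = MvPolynomial.C ((φ f).coeff 0) := by
    apply φ.injective
    rw [h1]
    simp only [MvPolynomial.coeff_zero_C]
    exact (φ.commutes _).symm
  rw [h2, dg_C] at h
  omega

/-- **the basic inequality** -/
theorem dg_euler (φ : GA2 K) (P : P2 K) :
    dg (φ (vx * MvPolynomial.pderiv 0 P)) ≤ dg (φ P) + (dg (φ vx) + dg (φ vy) - 2) := by
  obtain ⟨c, hc, hJ⟩ := Jc_const φ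
  have hx := dg_pos φ (f := vx) (by simp)
  have hy := dg_pos φ (f := vy) (by simp)
  have h := Jc_chain (φ : P2 K →ₐ[K] P2 K) P vy
  rw [Jc_y] at h
  have h1 : Jc (φ P) (φ vy) = φ (MvPolynomial.pderiv 0 P) * MvPolynomial.C c := by
    rw [← hJ]; exact h
  have h2 : dg (φ (MvPolynomial.pderiv 0 P)) ≤ (dg (φ P) - 1) + (dg (φ vy) - 1) := by
    have h3 := dg_Jc (φ P) (φ vy)
    rw [h1, mul_comm, dg_C_mul hc] at h3
    exact h3
  by_cases hP : dg (φ P) = 0
  · have h3 := dg_zero hP
    have h4 : P = MvPolynomial.C ((φ P).coeff 0) := by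
      apply φ.injective
      rw [h3]
      simp only [MvPolynomial.coeff_zero_C]
      exact (φ.commutes _).symm
    have h5 : MvPolynomial.pderiv (0 : Fin 2) P = 0 := by rw [h4]; simp
    rw [h5, mul_zero, map_zero]
    have : dg (0 : P2 K) = 0 := by simp [dg]
    omega
  · rw [map_mul]
    refine (dg_mul_le _ _).trans ?_
    omega

end Pool.Agent.W2helper25.PP
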