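import Pool.Agent.W2helper25.PP.Est
import Pool.Agent.W2helper25.PP.Grp

/-!
# Jung's theorem: the affine and the triangular automorphisms generate all automorphisms
-/

set_option autoImplicit false

namespace Pool.Agent.W2helper25.PP

open Polynomial

variable {K : Type} [Field K]

theorem wr_deg [CharZero K] {u v : K[X]} (hu : u ≠ 0) (hv : v ≠ 0)
    (h : Polynomial.derivative u * v = u * Polynomial.derivative v) :
    u.natDegree = v.natDegree := by
  by_cases h1 : u.natDegree = 0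
  · have h2 : Polynomial.derivative u = 0 := by
      rw [Polynomial.eq_C_of_natDegree_eq_zero h1, Polynomial.derivative_C]
    rw [h2, zero_mul, eq_comm, mul_eq_zero] at h
    rw [h1, Polynomial.derivative_eq_zero.mp (h.resolve_left hu)]
  by_cases h3 : v.natDegree = 0
  · have h2 : Polynomial.derivative v = 0 := by
      rw [Polynomial.eq_C_of_natDegree_eq_zero h3, Polynomial.derivative_C]
    rw [h2, mul_zero, mul_eq_zero] at h
    exact absurd (Polynomial.derivative_eq_zero.mp (h.resolve_right hv)) h1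
  obtain ⟨n, hn⟩ : ∃ n, u.natDegree = n + 1 := ⟨u.natDegree - 1, by omega⟩
  obtain ⟨m, hm⟩ : ∃ m, v.natDegree = m + 1 := ⟨v.natDegree - 1, by omega⟩
  have e1 : (Polynomial.derivative u * v).coeff (n + (m + 1)) =
      (Polynomial.derivative u).coeff n * v.coeff (m + 1) := by
    apply Polynomial.coeff_mul_add_eq_of_natDegree_le
    · have := Polynomial.natDegree_derivative_le u
      omega
    · omega
  have e2 : (u * Polynomial.derivative v).coeff ((n + 1) + m) =
      u.coeff (n + 1) * (Polynomial.derivative v).coeff m := by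
    apply Polynomial.coeff_mul_add_eq_of_natDegree_le
    · omega
    · have := Polynomial.natDegree_derivative_le v
      omega
  rw [Polynomial.coeff_derivative] at e1 e2
  rw [h, (by ring : n + (m + 1) = (n + 1) + m), e2] at e1
  have hu1 : u.coeff (n + 1) ≠ 0 := by
    rw [← hn]; exact Polynomial.leadingCoeff_ne_zero.mpr hu
  have hv1 : v.coeff (m + 1) ≠ 0 := by
    rw [← hm]; exact Polynomial.leadingCoeff_ne_zero.mpr hv
  have e3 : ((m + 1 : ℕ) : K) = ((n + 1 : ℕ) : K) := by
    push_cast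
    apply mul_left_cancel₀ (mul_ne_zero hu1 hv1)
    linear_combination e1
  rw [hn, hm]
  exact (by exact_mod_cast e3.symm : n + 1 = m + 1)

theorem wr [CharZero K] {u v : K[X]} (hu : u ≠ 0) (hv : v ≠ 0)
    (h : Polynomial.derivative u * v = u * Polynomial.derivative v) :
    ∃ c : K, c ≠ 0 ∧ u = Polynomial.C c * v := by
  have hd := wr_deg hu hv h
  have hv1 : v.leadingCoeff ≠ 0 := Polynomial.leadingCoeff_ne_zero.mpr hv
  have hu1 : u.leadingCoeff ≠ 0 := Polynomial.leadingCoeff_ne_zero.mpr hu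
  have hc : u.leadingCoeff / v.leadingCoeff ≠ 0 := div_ne_zero hu1 hv1
  refine ⟨u.leadingCoeff / v.leadingCoeff, hc, ?_⟩
  by_contra hne
  have hw : u - Polynomial.C (u.leadingCoeff / v.leadingCoeff) * v ≠ 0 := sub_ne_zero.mpr hne
  have h1 := wr_deg hw hv (by
    simp only [Polynomial.derivative_sub, Polynomial.derivative_mul, Polynomial.derivative_C]
    linear_combination h)
  have h2 : (u - Polynomial.C (u.leadingCoeff / v.leadingCoeff) * v).degree < u.degree := by
    apply Polynomial.degree_sub_lt_left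
    · rw [Polynomial.degree_C_mul hc, Polynomial.degree_eq_natDegree hu,
        Polynomial.degree_eq_natDegree hv, hd]
    · exact hu
    · rw [Polynomial.leadingCoeff_mul, Polynomial.leadingCoeff_C, div_mul_cancel₀ _ hv1]
  have h3 := Polynomial.natDegree_lt_natDegree hw h2
  omega

/-- the reduction -/
theorem reduce [CharZero K] (φ : GA2 K) (p : ℕ) (hp : 1 ≤ p) (hn : 2 ≤ dg (φ vx))
    (hpm : dg (φ vx) = p * dg (φ vy)) :
    ∃ c : K, dg (φ vx - MvPolynomial.C c * (φ vy) ^ p) < dg (φ vx) := by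
  obtain ⟨c0, hc0, hJ⟩ := Jc_const φ
  have hy := dg_pos φ (f := vy) (by simp)
  obtain ⟨n, hn'⟩ : ∃ n, dg (φ vx) = n + 1 := ⟨dg (φ vx) - 1, by omega⟩
  obtain ⟨m, hm'⟩ : ∃ m, dg (φ vy) = m + 1 := ⟨dg (φ vy) - 1, by omega⟩
  have h := coeff_Jc (φ vx) (φ vy) n m hn' hm'
  rw [hJ, ps_C, Polynomial.coeff_C, if_neg (by omega)] at h
  obtain ⟨a, ha⟩ : ∃ a, a = (ps (φ vx)).coeff (n + 1) := ⟨_, rfl⟩
  obtain ⟨b, hb⟩ : ∃ b, b = (ps (φ vy)).coeff (m + 1) := ⟨_, rfl⟩
  rw [← ha, ← hb] at h
  have hal : a = (ps (φ vx)).leadingCoeff := by rw [ha, ← hn']; rfl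
  have hbl : b = (ps (φ vy)).leadingCoeff := by rw [hb, ← hm']; rfl
  have hx0 : ps (φ vx) ≠ 0 := by
    intro h1; have h2 : dg (φ vx) = 0 := by rw [dg, h1, Polynomial.natDegree_zero]
    omega
  have hy0 : ps (φ vy) ≠ 0 := by
    intro h1; have h2 : dg (φ vy) = 0 := by rw [dg, h1, Polynomial.natDegree_zero]
    omega
  have ha0 : a ≠ 0 := by rw [hal]; exact Polynomial.leadingCoeff_ne_zero.mpr hx0
  have hb0 : b ≠ 0 := by rw [hbl]; exact Polynomial.leadingCoeff_ne_zero.mpr hy0
  have hnm : (n + 1 : K[X]) = (p : K[X]) * (m + 1) := by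
    have : n + 1 = p * (m + 1) := by rw [← hn', ← hm', hpm]
    exact_mod_cast congrArg (Nat.cast : ℕ → K[X]) this
  have hm0 : (m + 1 : K[X]) ≠ 0 := by
    have : ((m + 1 : ℕ) : K[X]) ≠ 0 := Nat.cast_ne_zero.mpr (by omega)
    exact_mod_cast this
  have h1 : (p : K[X]) * a * Polynomial.derivative b = Polynomial.derivative a * b := by
    apply mul_left_cancel₀ hm0
    rw [hnm] at h
    linear_combination -h
  obtain ⟨r, rfl⟩ : ∃ r, p = r + 1 := ⟨p - 1, by omega⟩
  obtain ⟨c, hc, hcc⟩ := wr (u := a) (v := b ^ (r + 1)) ha0 (pow_ne_zero _ hb0) (by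
    rw [Polynomial.derivative_pow, Nat.add_sub_cancel]
    simp only [map_natCast]
    rw [pow_succ]
    linear_combination (-(b ^ r)) * h1)
  refine ⟨c, ?_⟩
  have e1 : ps (φ vx - MvPolynomial.C c * (φ vy) ^ (r + 1)) =
      ps (φ vx) - Polynomial.C (Polynomial.C c) * ps (φ vy) ^ (r + 1) := by
    rw [map_sub, map_mul, map_pow, ps_C]
  have hCc : (Polynomial.C c : K[X]) ≠ 0 := Polynomial.C_ne_zero.mpr hc
  have e2 : (ps (φ vx) - Polynomial.C (Polynomial.C c) * ps (φ vy) ^ (r + 1)).degree <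
      (ps (φ vx)).degree := by
    apply Polynomial.degree_sub_lt_left
    · rw [Polynomial.degree_mul, Polynomial.degree_C hCc, zero_add, Polynomial.degree_pow,
        Polynomial.degree_eq_natDegree hx0, Polynomial.degree_eq_natDegree hy0]
      change ((dg (φ vx) : ℕ) : WithBot ℕ) = (r + 1) • ((dg (φ vy) : ℕ) : WithBot ℕ)
      rw [hpm]
      simp
    · exact hx0
    · rw [Polynomial.leadingCoeff_mul, Polynomial.leadingCoeff_C, Polynomial.leadingCoeff_pow,
        ← hbl, ← hal, hcc]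
  rw [dg, e1]
  by_cases hz : ps (φ vx) - Polynomial.C (Polynomial.C c) * ps (φ vy) ^ (r + 1) = 0
  · rw [hz, Polynomial.natDegree_zero]; omega
  · exact Polynomial.natDegree_lt_natDegree hz e2

theorem jung_aux [CharZero K] : ∀ (N : ℕ) (φ : GA2 K), dg (φ vx) + dg (φ vy) ≤ N →
    ∃ d, φ ∈ Aff K ⊔ Trd K d := by
  intro N
  induction N with
  | zero =>
    intro φ h
    have := dg_pos φ (f := vx) (by simp)
    omega
  | succ N ih =>
    -- the case in which the degree of the image of `y` is not larger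
    have key : ∀ φ : GA2 K, dg (φ vx) + dg (φ vy) ≤ N + 1 → dg (φ vy) ≤ dg (φ vx) →
        ∃ d, φ ∈ Aff K ⊔ Trd K d := by
      intro φ h hle
      have hy := dg_pos φ (f := vy) (by simp)
      by_cases h1 : dg (φ vx) ≤ 1
      · exact ⟨0, Subgroup.mem_sup_left (mem_Aff.mpr ⟨h1, by omega⟩)⟩
      obtain ⟨k, hk⟩ : ∃ k, k = Nat.gcd (dg (φ vx)) (dg (φ vy)) := ⟨_, rfl⟩
      have hkpos : 0 < k := by rw [hk]; exact Nat.gcd_pos_of_pos_right _ (by omega)
      obtain ⟨p, hp⟩ : ∃ p, dg (φ vx) = p * k := by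
        obtain ⟨p, hp⟩ := Nat.gcd_dvd_left (dg (φ vx)) (dg (φ vy))
        exact ⟨p, by rw [hk, mul_comm]; exact hp⟩
      obtain ⟨q, hq⟩ : ∃ q, dg (φ vy) = q * k := by
        obtain ⟨q, hq⟩ := Nat.gcd_dvd_right (dg (φ vx)) (dg (φ vy))
        exact ⟨q, by rw [hk, mul_comm]; exact hq⟩
      have hcop : Nat.Coprime p q := by
        have h2 : Nat.gcd (p * k) (q * k) = k := by rw [← hp, ← hq, hk]
        rw [Nat.gcd_mul_right] at h2
        exact Nat.eq_of_mul_eq_mul_right hkpos (by rw [h2, one_mul])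
      have hq0 : q ≠ 0 := by rintro rfl; omega
      have hpq : q ≤ p := by
        rw [hp, hq] at hle
        exact Nat.le_of_mul_le_mul_right hle hkpos
      by_cases hq1 : q = 1
      · -- reduction
        have hpm : dg (φ vx) = p * dg (φ vy) := by rw [hp, hq, hq1, one_mul]
        obtain ⟨c, hc⟩ := reduce φ p (by omega) (by omega) hpm
        obtain ⟨τ, hτ⟩ : ∃ τ : GA2 K, τ = elem (-(Polynomial.C c * Polynomial.X ^ p)) := ⟨_, rfl⟩
        have hx : (φ * τ) vx = φ vx - MvPolynomial.C c * (φ vy) ^ p := by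
          rw [AlgEquiv.mul_apply, hτ, elem_x, map_tri]
          simp only [map_one, one_mul, map_neg, map_mul, Polynomial.aeval_C, map_pow,
            Polynomial.aeval_X, MvPolynomial.algebraMap_eq]
          ring
        have hy' : (φ * τ) vy = φ vy := by rw [AlgEquiv.mul_apply, hτ, elem_y]
        obtain ⟨d, hd⟩ := ih (φ * τ) (by rw [hx, hy']; omega)
        obtain ⟨e, he⟩ : ∃ e, τ ∈ Trd K e := ⟨_, by rw [hτ]; exact elem_mem _⟩
        refine ⟨max d e, ?_⟩
        have h2 : φ * τ ∈ Aff K ⊔ Trd K (max d e) :=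
          sup_le_sup_left (Trd_mono (le_max_left _ _)) _ hd
        have h3 : τ ∈ Aff K ⊔ Trd K (max d e) :=
          Subgroup.mem_sup_right (Trd_mono (le_max_right _ _) he)
        have h4 := mul_mem h2 (inv_mem h3)
        rwa [mul_inv_cancel_right] at h4
      · -- the estimate
        exfalso
        have hP : 1 ≤ dg (φ⁻¹ vx) := dg_pos φ⁻¹ (by simp)
        have h2 := est φ p q k (by omega) (by omega) hkpos hp hq hcop (φ⁻¹ vx) hP
        have h3 : φ (φ⁻¹ vx) = vx := φ.apply_symm_apply _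
        rw [h3, dg_x] at h2
        omega
    intro φ h
    by_cases hle : dg (φ vy) ≤ dg (φ vx)
    · exact key φ h hle
    · have hx : (φ * (swp : GA2 K)) vx = φ vy := by rw [AlgEquiv.mul_apply, swp_x]
      have hy : (φ * (swp : GA2 K)) vy = φ vx := by rw [AlgEquiv.mul_apply, swp_y]
      obtain ⟨d, hd⟩ := key (φ * swp) (by rw [hx, hy]; omega) (by rw [hx, hy]; omega)
      refine ⟨d, ?_⟩
      have h4 := mul_mem hd (inv_mem (Subgroup.mem_sup_left swp_mem : swp ∈ Aff K ⊔ Trd K d))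
      rwa [mul_inv_cancel_right] at h4

/-- **Jung's theorem** -/
theorem jung [CharZero K] (φ : GA2 K) : ∃ d, φ ∈ Aff K ⊔ Trd K d :=
  jung_aux _ φ le_rfl

end Pool.Agent.W2helper25.PP
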