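import Pool.Agent.W2helper25.PP.Stab
import Pool.Agent.N509.TX.Fg

/-!
# Linear groups over algebraic extensions of `ℚ`
-/

set_option autoImplicit false

namespace Pool.Agent.W2helper25.PP

open Pool.Agent.Y110.FJ (ClosedE)
open Pool.Agent.N509.TX (of_fg)
open Pool.Agent.R941.FJ (C_le C_equiv)

variable {C : ∀ (G : Type) [Group G], Prop}

/-- restriction of scalars for matrices -/
noncomputable def rsc (F : Type) [Field F] [Algebra ℚ F] [FiniteDimensional ℚ F] (n : ℕ) :
    Matrix (Fin n) (Fin n) F →+*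
      Matrix (Fin (Module.finrank ℚ (Fin n → F))) (Fin (Module.finrank ℚ (Fin n → F))) ℚ :=
  (LinearMap.toMatrixAlgEquiv (Module.finBasis ℚ (Fin n → F))).toRingEquiv.toRingHom.comp
    { toFun := fun M => (Matrix.toLin' M).restrictScalars ℚ
      map_one' := by ext; simp
      map_mul' := fun M N => by ext; simp [Matrix.toLin'_mul]
      map_zero' := by ext; simp
      map_add' := fun M N => by ext; simp }

theorem rsc_injective (F : Type) [Field F] [Algebra ℚ F] [FiniteDimensional ℚ F] (n : ℕ) :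
    Function.Injective (rsc F n) := by
  intro M N h
  have h1 : (Matrix.toLin' M).restrictScalars ℚ = (Matrix.toLin' N).restrictScalars ℚ :=
    (LinearMap.toMatrixAlgEquiv (Module.finBasis ℚ (Fin n → F))).injective h
  apply Matrix.toLin'.injective
  ext x
  have := congrArg (fun f : (Fin n → F) →ₗ[ℚ] (Fin n → F) => f (Pi.single x 1)) h1
  simpa using congrFun this _

theorem C_GL_fin (hC : ClosedE C) (hQ : ∀ m : ℕ, C (GL (Fin m) ℚ)) (F : Type) [Field F]
    [Algebra ℚ F] [FiniteDimensional ℚ F] (n : ℕ) : C (GL (Fin n) F) :=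
  hC.base.of_injective _ _ (Units.map (rsc F n).toMonoidHom)
    (Units.map_injective (rsc_injective F n)) (hQ _)

theorem C_GL (hC : ClosedE C) (hQ : ∀ m : ℕ, C (GL (Fin m) ℚ)) (K : Type) [Field K]
    [Algebra ℚ K] [Algebra.IsAlgebraic ℚ K] (n : ℕ) : C (GL (Fin n) K) := by
  classical
  refine of_fg hC fun H hH => ?_
  rw [Group.fg_iff_subgroup_fg] at hH
  obtain ⟨S, hS⟩ := hH
  let E : Finset K := S.biUnion fun s => (Finset.univ.image fun p : Fin n × Fin n =>
    (s : Matrix (Fin n) (Fin n) K) p.1 p.2) ∪ (Finset.univ.image fun p : Fin n × Fin n =>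
      ((s⁻¹ : GL (Fin n) K) : Matrix (Fin n) (Fin n) K) p.1 p.2)
  let F : IntermediateField ℚ K := IntermediateField.adjoin ℚ (E : Set K)
  have hfin : FiniteDimensional ℚ F :=
    IntermediateField.finiteDimensional_adjoin (fun x _ => Algebra.IsIntegral.isIntegral x)
  have hC' : C (GL (Fin n) F) := @C_GL_fin C hC hQ F _ (IntermediateField.algebra' F) hfin n
  let θ : GL (Fin n) F →* GL (Fin n) K := Matrix.GeneralLinearGroup.map (algebraMap F K)
  have hle : H ≤ θ.range := by
    rw [← hS, Subgroup.closure_le]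
    intro s hs
    have h1 : ∀ i j, (s : Matrix (Fin n) (Fin n) K) i j ∈ F := fun i j =>
      IntermediateField.subset_adjoin ℚ _ (Finset.mem_coe.mpr (Finset.mem_biUnion.mpr
        ⟨s, hs, Finset.mem_union_left _ (Finset.mem_image.mpr ⟨(i, j), Finset.mem_univ _, rfl⟩)⟩))
    have h2 : ∀ i j, ((s⁻¹ : GL (Fin n) K) : Matrix (Fin n) (Fin n) K) i j ∈ F := fun i j =>
      IntermediateField.subset_adjoin ℚ _ (Finset.mem_coe.mpr (Finset.mem_biUnion.mpr
        ⟨s, hs, Finset.mem_union_right _ (Finset.mem_image.mpr ⟨(i, j), Finset.mem_univ _, rfl⟩)⟩))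
    let M : Matrix (Fin n) (Fin n) F := fun i j => ⟨_, h1 i j⟩
    let N : Matrix (Fin n) (Fin n) F := fun i j => ⟨_, h2 i j⟩
    have hM : M.map (algebraMap F K) = s := by ext i j; rfl
    have hN : N.map (algebraMap F K) = ((s⁻¹ : GL (Fin n) K) : Matrix (Fin n) (Fin n) K) := by
      ext i j; rfl
    have hinj : Function.Injective (fun A : Matrix (Fin n) (Fin n) F =>
        A.map (algebraMap F K)) := Matrix.map_injective (algebraMap F K).injective
    have hMN : M * N = 1 := by
      apply hinj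
      show (M * N).map (algebraMap F K) = (1 : Matrix (Fin n) (Fin n) F).map (algebraMap F K)
      rw [Matrix.map_mul, hM, hN, Matrix.map_one _ (map_zero _) (map_one _), ← Units.val_mul,
        mul_inv_cancel, Units.val_one]
    have hNM : N * M = 1 := by
      apply hinj
      show (N * M).map (algebraMap F K) = (1 : Matrix (Fin n) (Fin n) F).map (algebraMap F K)
      rw [Matrix.map_mul, hM, hN, Matrix.map_one _ (map_zero _) (map_one _), ← Units.val_mul,
        inv_mul_cancel, Units.val_one]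
    refine ⟨⟨M, N, hMN, hNM⟩, ?_⟩
    apply Units.ext
    exact hM
  refine C_le hC.base hle ?_
  exact C_equiv hC.base (MonoidHom.ofInjective (f := θ) (by
    intro A B hAB
    apply Units.ext
    apply Matrix.map_injective (algebraMap F K).injective
    exact congrArg Units.val hAB)).symm hC'

variable {K : Type} [Field K]

/-- the matrix of an affine automorphism -/
noncomputable def mat (φ : GA2 K) : Matrix (Fin 3) (Fin 3) K :=
  !![MvPolynomial.coeff (ex 1 0) (φ vx), MvPolynomial.coeff (ex 1 0) (φ vy), 0;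
     MvPolynomial.coeff (ex 0 1) (φ vx), MvPolynomial.coeff (ex 0 1) (φ vy), 0;
     MvPolynomial.coeff 0 (φ vx), MvPolynomial.coeff 0 (φ vy), 1]

theorem mat_eq {φ : GA2 K} {a b c a' b' c' : K} (h1 : φ vx = lin a b c)
    (h2 : φ vy = lin a' b' c') : mat φ = !![a, a', 0; b, b', 0; c, c', 1] := by
  obtain ⟨e1, e2, e3⟩ := coeff_lin a b c
  obtain ⟨f1, f2, f3⟩ := coeff_lin a' b' c'
  rw [mat, h1, h2, e1, e2, e3, f1, f2, f3]

/-- the matrices of affine automorphisms -/
noncomputable def matHom (K : Type) [Field K] : ↥(Aff K) →* Matrix (Fin 3) (Fin 3) K where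
  toFun φ := mat (φ : GA2 K)
  map_one' := by
    have e1 : ((1 : ↥(Aff K)) : GA2 K) vx = lin 1 0 0 := by rw [← vx_eq_lin]; rfl
    have e2 : ((1 : ↥(Aff K)) : GA2 K) vy = lin 0 1 0 := by rw [← vy_eq_lin]; rfl
    rw [mat_eq e1 e2]
    ext i j
    fin_cases i <;> fin_cases j <;> rfl
  map_mul' := by
    rintro ⟨φ, ⟨a, b, c, h1⟩, a', b', c', h2⟩ ⟨χ, ⟨u, v, w, h3⟩, u', v', w', h4⟩
    have h5 : (φ * χ) vx = lin (u * a + v * a') (u * b + v * b') (u * c + v * c' + w) := by
      rw [AlgEquiv.mul_apply, h3, map_lin, h1, h2]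
      simp only [lin, map_add, map_mul]; ring
    have h6 : (φ * χ) vy = lin (u' * a + v' * a') (u' * b + v' * b') (u' * c + v' * c' + w') := by
      rw [AlgEquiv.mul_apply, h4, map_lin, h1, h2]
      simp only [lin, map_add, map_mul]; ring
    show mat (φ * χ) = mat φ * mat χ
    rw [mat_eq h5 h6, mat_eq h1 h2, mat_eq h3 h4]
    ext i j
    fin_cases i <;> fin_cases j <;> simp [Matrix.mul_apply, Fin.sum_univ_three] <;> ring

theorem matHom_injective : Function.Injective (matHom K) := by
  rintro ⟨φ, ⟨a, b, c, h1⟩, a', b', c', h2⟩ ⟨χ, ⟨u, v, w, h3⟩, u', v', w', h4⟩ h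
  have h5 : mat φ = mat χ := h
  rw [mat_eq h1 h2, mat_eq h3 h4] at h5
  apply Subtype.ext
  have e1 : a = u := congrFun (congrFun h5 0) 0
  have e2 : b = v := congrFun (congrFun h5 1) 0
  have e3 : c = w := congrFun (congrFun h5 2) 0
  have e4 : a' = u' := congrFun (congrFun h5 0) 1
  have e5 : b' = v' := congrFun (congrFun h5 1) 1
  have e6 : c' = w' := congrFun (congrFun h5 2) 1
  apply ext2
  · show φ vx = χ vx
    rw [h1, h3, e1, e2, e3]
  · show φ vy = χ vy
    rw [h2, h4, e4, e5, e6]

theorem C_Aff_of (hC : ClosedE C) (K : Type) [Field K] (h : C (GL (Fin 3) K)) :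
    C ↥(Aff K) := by
  refine hC.base.of_injective _ _ (matHom K).toHomUnits ?_ h
  intro a b hab
  exact matHom_injective (congrArg Units.val hab)

end Pool.Agent.W2helper25.PP
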