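import Pool.Agent.W2helper25.PP.Stab

/-!
# The group of triangular automorphisms is solvable
-/

set_option autoImplicit false

namespace Pool.Agent.W2helper25.PP

open Polynomial

variable {K : Type} [Field K]

theorem coeff_aeval_y (p : K[X]) (i j : ℕ) :
    MvPolynomial.coeff (ex i j) (Polynomial.aeval (vy : P2 K) p) =
      if i = 0 then p.coeff j else 0 := by
  induction p using Polynomial.induction_on' with
  | add p q hp hq =>
    rw [map_add, MvPolynomial.coeff_add, hp, hq, Polynomial.coeff_add]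
    split_ifs <;> simp
  | monomial n a =>
    have e1 : (Finsupp.single 1 n : Fin 2 →₀ ℕ) = ex 0 n := by simp [ex]
    rw [Polynomial.aeval_monomial, MvPolynomial.algebraMap_eq, MvPolynomial.coeff_C_mul, vy,
      MvPolynomial.coeff_X_pow, e1, Polynomial.coeff_monomial]
    by_cases h1 : i = 0
    · by_cases h2 : n = j
      · rw [h1, h2]; simp
      · have : ex 0 n ≠ ex i j := fun h => h2 (ex_inj h).2
        rw [if_neg this, if_neg h2]; simp
    · have : ex 0 n ≠ ex i j := fun h => h1 (ex_inj h).1.symm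
      rw [if_neg this, if_neg h1, mul_zero]

theorem coeff_tri (a : K) (p : K[X]) : MvPolynomial.coeff (ex 1 0) (tri a p) = a := by
  have e0 : (Finsupp.single 0 1 : Fin 2 →₀ ℕ) = ex 1 0 := by simp [ex]
  rw [tri, MvPolynomial.coeff_add, MvPolynomial.coeff_C_mul, MvPolynomial.coeff_X, e0, if_pos rfl,
    coeff_aeval_y]
  simp

/-- the product of two triangular automorphisms -/
theorem tr_mul {φ χ : GA2 K} {a b c a' b' c' : K} {p p' : K[X]} (h1 : φ vx = tri a p)
    (h2 : φ vy = lin 0 b c) (h3 : χ vx = tri a' p') (h4 : χ vy = lin 0 b' c') :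
    (φ * χ) vx = tri (a' * a) (Polynomial.C a' * p +
      p'.comp (Polynomial.C b * Polynomial.X + Polynomial.C c)) ∧
    (φ * χ) vy = lin 0 (b' * b) (b' * c + c') := by
  constructor
  · rw [AlgEquiv.mul_apply, h3, map_tri, h1, h2, aeval_lin]
    simp only [tri, map_add, map_mul, Polynomial.aeval_C, MvPolynomial.algebraMap_eq]
    ring
  · rw [AlgEquiv.mul_apply, h4, map_lin, h2]
    simp only [lin, map_add, map_mul, map_zero]
    ring

/-- the linear parts -/
noncomputable def dgl (d : ℕ) : ↥(Trd K d) →* K × K where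
  toFun φ := (MvPolynomial.coeff (ex 1 0) ((φ : GA2 K) vx),
    MvPolynomial.coeff (ex 0 1) ((φ : GA2 K) vy))
  map_one' := by
    have e1 : ((1 : ↥(Trd K d)) : GA2 K) vx = lin 1 0 0 := by rw [← vx_eq_lin]; rfl
    have e2 : ((1 : ↥(Trd K d)) : GA2 K) vy = lin 0 1 0 := by rw [← vy_eq_lin]; rfl
    rw [e1, e2, (coeff_lin 1 0 0).1, (coeff_lin 0 1 0).2.1]; rfl
  map_mul' := by
    rintro ⟨φ, a, b, c, p, ha, hb, hp, h1, h2⟩ ⟨χ, a', b', c', p', ha', hb', hp', h3, h4⟩
    obtain ⟨h5, h6⟩ := tr_mul h1 h2 h3 h4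
    show (MvPolynomial.coeff (ex 1 0) ((φ * χ) vx), MvPolynomial.coeff (ex 0 1) ((φ * χ) vy)) =
      (MvPolynomial.coeff (ex 1 0) (φ vx) * MvPolynomial.coeff (ex 1 0) (χ vx),
        MvPolynomial.coeff (ex 0 1) (φ vy) * MvPolynomial.coeff (ex 0 1) (χ vy))
    rw [h5, h6, h1, h2, h3, h4, coeff_tri, coeff_tri, coeff_tri, (coeff_lin _ _ _).2.1,
      (coeff_lin _ _ _).2.1, (coeff_lin _ _ _).2.1, mul_comm a', mul_comm b']

theorem ker_form {d : ℕ} {φ : ↥(Trd K d)} (h : φ ∈ (dgl (K := K) d).toHomUnits.ker) :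
    ∃ (p : K[X]) (c : K), (φ : GA2 K) vx = tri 1 p ∧ (φ : GA2 K) vy = lin 0 1 c := by
  obtain ⟨φ, a, b, c, p, ha, hb, hp, h1, h2⟩ := φ
  rw [MonoidHom.mem_ker] at h
  have h3 : (dgl (K := K) d) ⟨φ, a, b, c, p, ha, hb, hp, h1, h2⟩ = 1 := congrArg Units.val h
  have h4 : MvPolynomial.coeff (ex 1 0) (φ vx) = 1 := congrArg Prod.fst h3
  have h5 : MvPolynomial.coeff (ex 0 1) (φ vy) = 1 := congrArg Prod.snd h3
  rw [h1, coeff_tri] at h4
  rw [h2, (coeff_lin _ _ _).2.1] at h5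
  refine ⟨p, c, ?_, ?_⟩
  · rw [← h4]; exact h1
  · rw [← h5]; exact h2

/-- the translation part -/
noncomputable def trl (d : ℕ) : ↥((dgl (K := K) d).toHomUnits.ker) →* Multiplicative K where
  toFun φ := Multiplicative.ofAdd (MvPolynomial.coeff 0 (((φ : ↥(Trd K d)) : GA2 K) vy))
  map_one' := by
    have e2 : ((1 : ↥(Trd K d)) : GA2 K) vy = lin 0 1 0 := by rw [← vy_eq_lin]; rfl
    show Multiplicative.ofAdd (MvPolynomial.coeff 0 (((1 : ↥(Trd K d)) : GA2 K) vy)) = 1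
    rw [e2, (coeff_lin 0 1 0).2.2]; rfl
  map_mul' := by
    intro φ χ
    obtain ⟨p, c, h1, h2⟩ := ker_form φ.2
    obtain ⟨p', c', h3, h4⟩ := ker_form χ.2
    obtain ⟨h5, h6⟩ := tr_mul h1 h2 h3 h4
    show Multiplicative.ofAdd (MvPolynomial.coeff 0 ((((φ : ↥(Trd K d)) : GA2 K) *
      ((χ : ↥(Trd K d)) : GA2 K)) vy)) = _
    rw [h6, (coeff_lin _ _ _).2.2]
    show _ = Multiplicative.ofAdd (MvPolynomial.coeff 0 (((φ : ↥(Trd K d)) : GA2 K) vy)) *
      Multiplicative.ofAdd (MvPolynomial.coeff 0 (((χ : ↥(Trd K d)) : GA2 K) vy))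
    rw [h2, h4, (coeff_lin _ _ _).2.2, (coeff_lin _ _ _).2.2, one_mul]; rfl

theorem trd_solvable (d : ℕ) : Group.IsSolvable ↥(Trd K d) := by
  have h3 : Group.IsSolvable ↥(trl (K := K) d).ker := by
    apply Group.isSolvable_of_comm
    intro φ χ
    have key : ∀ φ : ↥(trl (K := K) d).ker, ∃ p : K[X],
        (((φ : ↥((dgl (K := K) d).toHomUnits.ker)) : ↥(Trd K d)) : GA2 K) vx = tri 1 p ∧
        (((φ : ↥((dgl (K := K) d).toHomUnits.ker)) : ↥(Trd K d)) : GA2 K) vy = lin 0 1 0 := by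
      intro φ
      obtain ⟨p, c, h1, h2⟩ := ker_form (φ : ↥((dgl (K := K) d).toHomUnits.ker)).2
      have h4 : Multiplicative.ofAdd (MvPolynomial.coeff 0
          ((((φ : ↥((dgl (K := K) d).toHomUnits.ker)) : ↥(Trd K d)) : GA2 K) vy)) = 1 := φ.2
      rw [h2, (coeff_lin _ _ _).2.2] at h4
      have h5 : c = 0 := h4
      rw [h5] at h2
      exact ⟨p, h1, h2⟩
    obtain ⟨p, h1, h2⟩ := key φ
    obtain ⟨q, h3, h4⟩ := key χ
    obtain ⟨a1, a2⟩ := tr_mul h1 h2 h3 h4
    obtain ⟨b1, b2⟩ := tr_mul h3 h4 h1 h2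
    apply Subtype.ext
    apply Subtype.ext
    apply Subtype.ext
    apply ext2
    · refine a1.trans (Eq.trans ?_ b1.symm)
      simp [add_comm]
    · exact a2.trans b2.symm
  have h2 : Group.IsSolvable ↥((dgl (K := K) d).toHomUnits.ker) := by
    refine Group.isSolvable_of_ker_le_range (trl (K := K) d).ker.subtype (trl (K := K) d) ?_
    rw [Subgroup.range_subtype]
  refine Group.isSolvable_of_ker_le_range (dgl (K := K) d).toHomUnits.ker.subtype
    (dgl (K := K) d).toHomUnits ?_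
  rw [Subgroup.range_subtype]

end Pool.Agent.W2helper25.PP
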