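import Pool.Agent.W2helper25.PP.Act
import Pool.Agent.W2helper25.PP.Sol
import Pool.Agent.W2helper25.PP.Lin

/-!
# Groups of polynomial automorphisms of the plane: conclusion
-/

set_option autoImplicit false

namespace Pool.Agent.W2helper25.PP

open Pool.Agent.Y110.FJ (ClosedE)
open Pool.Agent.N509.TX (AcylF of_fg)
open Pool.Agent.R941.FJ (C_le C_equiv)

variable {C : ∀ (G : Type) [Group G], Prop}

theorem main1 (hC : ClosedE C) (hA : AcylF C)
    (hS : ∀ (G : Type) [Group G], Group.IsSolvable G → C G) (K : Type) [Field K] [CharZero K]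
    (G : Subgroup (GA2 K))
    (hG : ∀ g : GA2 K, C ↥(G ⊓ (Aff K).map (MulAut.conj g).toMonoidHom)) : C G := by
  refine of_fg hC fun H hH => ?_
  have hfg : Group.FG ↥(H.map G.subtype) := by
    have := hH
    exact Group.fg_of_surjective
      (f := (H.equivMapOfInjective G.subtype G.subtype_injective).toMonoidHom)
      (H.equivMapOfInjective G.subtype G.subtype_injective).surjective
  have h1 : C ↥(H.map G.subtype) := by
    apply fg_case hC hA hS trd_solvable _ hfg
    intro g
    refine C_le hC.base ?_ (hG g)
    apply inf_le_inf_right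
    rintro _ ⟨x, _, rfl⟩
    exact x.2
  exact C_equiv hC.base (H.equivMapOfInjective G.subtype G.subtype_injective) h1

theorem main2 (hC : ClosedE C) (hA : AcylF C)
    (hS : ∀ (G : Type) [Group G], Group.IsSolvable G → C G) (hQ : ∀ m : ℕ, C (GL (Fin m) ℚ))
    (K : Type) [Field K] [Algebra ℚ K] [Algebra.IsAlgebraic ℚ K]
    (G : Type) [Group G] (f : G →* GA2 K) (hf : Function.Injective f) : C G := by
  have h0 : CharZero K := algebraRat.charZero K
  have hAff : C ↥(Aff K) := C_Aff_of hC K (C_GL hC hQ K 3)
  refine C_equiv hC.base (MonoidHom.ofInjective hf) ?_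
  apply main1 hC hA hS K
  intro g
  refine C_le hC.base inf_le_right ?_
  exact C_equiv hC.base ((Aff K).equivMapOfInjective _ (MulAut.conj g).injective).symm hAff

end Pool.Agent.W2helper25.PP
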