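import Pool.Agent.W2helper25.PP.Grp

/-!
# Stabilizers of long paths
-/

set_option autoImplicit false

namespace Pool.Agent.W2helper25.PP

open Polynomial

variable {K : Type} [Field K]

theorem ex_ne1 : ex 0 1 ≠ ex 1 0 := fun h => by have := (ex_inj h).1; omega
theorem ex_ne2 : (0 : Fin 2 →₀ ℕ) ≠ ex 1 0 := fun h => by
  have z : ex 0 0 = 0 := by simp [ex]
  rw [← z] at h; have := (ex_inj h).1; omega
theorem ex_ne3 : (0 : Fin 2 →₀ ℕ) ≠ ex 0 1 := fun h => by
  have z : ex 0 0 = 0 := by simp [ex]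
  rw [← z] at h; have := (ex_inj h).2; omega

theorem coeff_lin (a b c : K) : MvPolynomial.coeff (ex 1 0) (lin a b c) = a ∧
    MvPolynomial.coeff (ex 0 1) (lin a b c) = b ∧ MvPolynomial.coeff 0 (lin a b c) = c := by
  have e0 : (Finsupp.single 0 1 : Fin 2 →₀ ℕ) = ex 1 0 := by simp [ex]
  have e1 : (Finsupp.single 1 1 : Fin 2 →₀ ℕ) = ex 0 1 := by simp [ex]
  simp only [lin, MvPolynomial.coeff_add, MvPolynomial.coeff_C_mul, MvPolynomial.coeff_C,
    MvPolynomial.coeff_X, e0, e1, if_true, if_neg ex_ne1, if_neg ex_ne1.symm, if_neg ex_ne2,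
    if_neg ex_ne3, if_neg (ex_ne2).symm, if_neg (ex_ne3).symm]
  simp

theorem lin_inj {a b c a' b' c' : K} (h : lin a b c = lin a' b' c') :
    a = a' ∧ b = b' ∧ c = c' := by
  have h1 := coeff_lin a b c
  have h2 := coeff_lin a' b' c'
  rw [h] at h1
  exact ⟨h1.1.symm.trans h2.1, h1.2.1.symm.trans h2.2.1, h1.2.2.symm.trans h2.2.2⟩

theorem dg_aeval_y (p : K[X]) : dg (Polynomial.aeval (vy : P2 K) p) = p.natDegree := by
  rw [dg_aeval, dg_y, mul_one]

theorem tri_lin {a : K} {p : K[X]} (h : dg (tri a p) ≤ 1) :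
    ∃ b c : K, p = Polynomial.C b * Polynomial.X + Polynomial.C c ∧ tri a p = lin a b c := by
  have h1 : dg (Polynomial.aeval (vy : P2 K) p) ≤ 1 := by
    have e : Polynomial.aeval (vy : P2 K) p = tri a p - MvPolynomial.C a * vx := by
      rw [tri]; ring
    rw [e]
    refine (dg_sub_le _ _).trans (max_le h ?_)
    exact (dg_C_mul_le _ _).trans (by simp)
  rw [dg_aeval_y] at h1
  have hp := Polynomial.eq_X_add_C_of_natDegree_le_one h1
  refine ⟨_, _, hp, ?_⟩
  rw [tri, hp, lin]
  simp [Polynomial.aeval_def, MvPolynomial.algebraMap_eq, add_assoc]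

theorem dg_tri_le (a : K) (p : K[X]) : dg (tri a p) ≤ max 1 p.natDegree := by
  rw [tri]
  refine (dg_add_le _ _).trans (max_le_max ?_ ?_)
  · exact (dg_C_mul_le _ _).trans (by simp)
  · rw [dg_aeval_y]

/-- `b` is affine and triangular, with the given coefficients -/
def Bor (b : GA2 K) (a r c s e : K) : Prop :=
  a ≠ 0 ∧ s ≠ 0 ∧ b vx = lin a r c ∧ b vy = lin 0 s e

theorem bor_of {b : GA2 K} {d : ℕ} (h1 : b ∈ Aff K) (h2 : b ∈ Trd K d) :
    ∃ a r c s e : K, Bor b a r c s e := by
  obtain ⟨a, s, e, p, ha, hs, _, hx, hy⟩ := h2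
  obtain ⟨h3, _⟩ := mem_Aff.mp h1
  rw [hx] at h3
  obtain ⟨r, c, _, h4⟩ := tri_lin h3
  exact ⟨a, r, c, s, e, ha, hs, by rw [hx, h4], hy⟩

theorem Bor.aff {b : GA2 K} {a r c s e : K} (h : Bor b a r c s e) : b ∈ Aff K :=
  ⟨⟨_, _, _, h.2.2.1⟩, _, _, _, h.2.2.2⟩

theorem lin_eq_tri (a r c : K) :
    lin a r c = tri a (Polynomial.C r * Polynomial.X + Polynomial.C c) := by
  rw [tri, lin]
  simp [Polynomial.aeval_def, MvPolynomial.algebraMap_eq, add_assoc]

theorem Bor.tr {b : GA2 K} {a r c s e : K} (h : Bor b a r c s e) {d : ℕ} (hd : 1 ≤ d) :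
    b ∈ Trd K d :=
  ⟨a, s, e, Polynomial.C r * Polynomial.X + Polynomial.C c, h.1, h.2.1,
    Polynomial.natDegree_linear_le.trans hd, by rw [h.2.2.1, lin_eq_tri], h.2.2.2⟩

/-- an affine automorphism which is not triangular -/
theorem aff_not_tr {a : GA2 K} {d : ℕ} (hd : 1 ≤ d) (h1 : a ∈ Aff K) (h2 : a ∉ Trd K d) :
    ∃ u v w : K, u ≠ 0 ∧ a vy = lin u v w := by
  obtain ⟨⟨l, m, n, h3⟩, u, v, w, h4⟩ := h1
  refine ⟨u, v, w, ?_, h4⟩
  rintro rfl
  apply h2
  have hv : v ≠ 0 := by
    rintro rfl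
    have := dg_pos a (f := vy) (by simp)
    rw [h4] at this
    simp [lin] at this
  have hl : l ≠ 0 := by
    rintro rfl
    have h5 : a (MvPolynomial.C v * vx - MvPolynomial.C m * vy) =
        MvPolynomial.C (v * n - m * w) := by
      rw [map_sub, map_mul, map_mul, map_C, map_C, h3, h4]
      simp only [lin, map_zero, map_sub, map_mul]
      ring
    have h6 : (MvPolynomial.C v * vx - MvPolynomial.C m * vy : P2 K) =
        MvPolynomial.C (v * n - m * w) := by
      apply a.injective
      rw [h5, map_C]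
    have h7 : lin v (-m) 0 = lin 0 0 (v * n - m * w) := by
      simp only [lin, map_neg, map_zero, zero_mul, zero_add]
      rw [← h6]; ring
    exact hv (lin_inj h7).1
  exact (show Bor a l m n v w from ⟨hl, hv, h3, h4⟩).tr hd

/-- the normal form of a triangular automorphism which is not affine -/
theorem tr_not_aff {t : GA2 K} {d : ℕ} (h1 : t ∈ Trd K d) (h2 : t ∉ Aff K) :
    ∃ (p : K[X]) (b : GA2 K), 2 ≤ p.natDegree ∧ p.natDegree ≤ d ∧ (∃ a r c s e : K,
      Bor b a r c s e) ∧ t = elem p * b := by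
  obtain ⟨a, s, e, p0, ha, hs, hd, hx, hy⟩ := h1
  refine ⟨Polynomial.C a⁻¹ * p0, (elem (Polynomial.C a⁻¹ * p0))⁻¹ * t, ?_, ?_,
    ⟨a, 0, 0, s, e, ha, hs, ?_, ?_⟩, by group⟩
  · rw [Polynomial.natDegree_C_mul (inv_ne_zero ha)]
    by_contra hc
    apply h2
    rw [mem_Aff, hx, hy]
    refine ⟨(dg_tri_le _ _).trans (max_le le_rfl (by omega)), dg_lin _ _ _⟩
  · rw [Polynomial.natDegree_C_mul (inv_ne_zero ha)]
    exact hd
  · rw [AlgEquiv.mul_apply]
    apply inv_eq
    rw [map_lin, elem_x, elem_y, hx, tri, tri]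
    have e1 : (MvPolynomial.C a * MvPolynomial.C a⁻¹ : P2 K) = 1 := by
      rw [← map_mul, mul_inv_cancel₀ ha, map_one]
    simp only [map_zero, map_one, map_mul, Polynomial.aeval_C, MvPolynomial.algebraMap_eq]
    linear_combination (Polynomial.aeval vy p0) * e1
  · rw [AlgEquiv.mul_apply]
    apply inv_eq
    rw [map_lin, elem_y, hy, lin]
    simp

theorem elem_inv (p : K[X]) : (elem p)⁻¹ = elem (-p) := by
  apply ext2
  · apply inv_eq
    rw [elem_x, map_tri, elem_x, elem_y, tri]
    simp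
  · apply inv_eq
    rw [elem_y, elem_y]

/-- conjugation with an elementary automorphism -/
theorem conj_elem {b : GA2 K} {a r c s e : K} (h : Bor b a r c s e) (p : K[X]) :
    ((elem p)⁻¹ * b * elem p) vx = tri a (Polynomial.C r * Polynomial.X + Polynomial.C c +
      p.comp (Polynomial.C s * Polynomial.X + Polynomial.C e) - Polynomial.C a * p) ∧
    ((elem p)⁻¹ * b * elem p) vy = lin 0 s e := by
  constructor
  · rw [AlgEquiv.mul_apply, AlgEquiv.mul_apply, elem_x, map_tri, h.2.2.1, h.2.2.2, aeval_lin,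
      elem_inv, map_add, map_mul, map_C, map_lin, elem_x, elem_y, ← Polynomial.aeval_algHom_apply,
      elem_y]
    simp only [tri, map_add, map_sub, map_mul, map_neg, map_one, Polynomial.aeval_C,
      Polynomial.aeval_X, MvPolynomial.algebraMap_eq]
    ring
  · rw [AlgEquiv.mul_apply, AlgEquiv.mul_apply, elem_y, h.2.2.2, elem_inv, map_lin, elem_y, lin]
    simp

/-- a polynomial that changes by a constant under a translation is linear -/
theorem transl [CharZero K] {p : K[X]} {e c : K} (he : e ≠ 0)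
    (h : p.comp (Polynomial.X + Polynomial.C e) = p + Polynomial.C c) : p.natDegree ≤ 1 := by
  have h1 : ∀ n : ℕ, p.eval (n * e) = p.eval 0 + n * c := by
    intro n
    induction n with
    | zero => simp
    | succ n ih =>
      have h2 := congrArg (Polynomial.eval (n * e)) h
      simp only [Polynomial.eval_comp, Polynomial.eval_add, Polynomial.eval_X,
        Polynomial.eval_C] at h2
      push_cast
      rw [add_mul, one_mul, h2, ih]
      ring
  have h2 : p = Polynomial.C (c / e) * Polynomial.X + Polynomial.C (p.eval 0) := by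
    apply Polynomial.eq_of_infinite_eval_eq
    apply Set.infinite_of_injective_forall_mem (f := fun n : ℕ => (n : K) * e)
    · intro m n hmn
      have := mul_right_cancel₀ he hmn
      exact_mod_cast this
    · intro n
      show p.eval (n * e) = _
      rw [h1]
      simp only [Polynomial.eval_add, Polynomial.eval_mul, Polynomial.eval_C, Polynomial.eval_X]
      field_simp
      ring
  rw [h2]
  exact Polynomial.natDegree_linear_le

/-- the condition for preserving a second direction -/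
theorem second {b a0 : GA2 K} {a r c s e u v w : K} {d : ℕ} (hx : b vx = lin a r c)
    (hy : b vy = lin 0 s e) (hu : u ≠ 0) (ha0 : a0 vy = lin u v w)
    (ht : a0⁻¹ * b * a0 ∈ Trd K d) :
    u * r + v * s = a * v ∧ ∃ e', (a0⁻¹ * b * a0) vy = lin 0 a e' ∧
      u * c + v * e + w = a * w + e' := by
  obtain ⟨a', s', e', p', _, _, _, _, h1⟩ := ht
  have h2 : b (a0 vy) = a0 (lin 0 s' e') := by
    rw [← h1, AlgEquiv.mul_apply, AlgEquiv.mul_apply]
    exact (a0.apply_symm_apply _).symm
  rw [ha0, map_lin, map_lin, hx, hy, ha0] at h2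
  have h3 : lin (u * a) (u * r + v * s) (u * c + v * e + w) = lin (s' * u) (s' * v)
      (s' * w + e') := by
    simp only [lin, map_add, map_mul, map_zero] at h2 ⊢
    linear_combination h2
  obtain ⟨h4, h5, h6⟩ := lin_inj h3
  have h7 : s' = a := by
    apply mul_right_cancel₀ hu
    rw [← h4, mul_comm]
  rw [h7] at h1 h5 h6
  exact ⟨h5, e', h1, h6⟩

/-- the constraints from a triangular vertex -/
theorem tri_vertex [CharZero K] {b a0 : GA2 K} {a r c s e : K} {d : ℕ} (hd : 1 ≤ d)
    (hb : Bor b a r c s e) {p : K[X]} (hp : 2 ≤ p.natDegree)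
    (h1 : (elem p)⁻¹ * b * elem p ∈ Aff K) (ha0 : a0 ∈ Aff K) (ha0' : a0 ∉ Trd K d)
    (h2 : a0⁻¹ * ((elem p)⁻¹ * b * elem p) * a0 ∈ Trd K d) :
    a = s ^ p.natDegree ∧ (s = 1 → r = 0 → e = 0) := by
  obtain ⟨u, v, w, hu, hv⟩ := aff_not_tr hd ha0 ha0'
  obtain ⟨hx, hy⟩ := conj_elem hb p
  have h3 := (mem_Aff.mp h1).1
  rw [hx] at h3
  obtain ⟨q1, q0, hq, hq'⟩ := tri_lin h3
  rw [hq'] at hx
  obtain ⟨h4, _⟩ := second hx hy hu hv h2
  have hs := hb.2.1
  have ha : a = s ^ p.natDegree := by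
    have h5 := congrArg (fun f => Polynomial.coeff f p.natDegree) hq
    have e1 : (p.comp (Polynomial.C s * Polynomial.X + Polynomial.C e)).coeff p.natDegree =
        p.leadingCoeff * s ^ p.natDegree := by
      have hl : (Polynomial.C s * Polynomial.X + Polynomial.C e).natDegree = 1 :=
        Polynomial.natDegree_linear hs
      have := Polynomial.coeff_comp_degree_mul_degree (p := p)
        (q := Polynomial.C s * Polynomial.X + Polynomial.C e) (by rw [hl]; exact one_ne_zero)
      rw [hl, mul_one, Polynomial.leadingCoeff_linear hs] at this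
      exact this
    have e2 : ∀ x y : K, (Polynomial.C x * Polynomial.X + Polynomial.C y).coeff p.natDegree = 0 :=
      fun x y => Polynomial.coeff_eq_zero_of_natDegree_lt
        (lt_of_le_of_lt Polynomial.natDegree_linear_le (by omega))
    simp only [Polynomial.coeff_sub, Polynomial.coeff_add _ (p.comp _), e1, e2,
      Polynomial.coeff_C_mul, zero_add] at h5
    have h6 : p.leadingCoeff ≠ 0 := Polynomial.leadingCoeff_ne_zero.mpr (by
      rintro rfl; simp at hp)
    have h7 : p.leadingCoeff * (s ^ p.natDegree - a) = 0 := by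
      rw [Polynomial.leadingCoeff] at h5 ⊢
      linear_combination h5
    rcases mul_eq_zero.mp h7 with h8 | h8
    · exact absurd h8 h6
    · exact (sub_eq_zero.mp h8).symm
  refine ⟨ha, ?_⟩
  intro hs1 hr
  by_contra he
  rw [hs1, one_pow] at ha
  rw [ha, hs1] at h4
  have hq1 : q1 = 0 := by
    have : u * q1 = 0 := by linear_combination h4
    exact (mul_eq_zero.mp this).resolve_left hu
  rw [hq1, ha, hr, hs1] at hq
  simp only [map_zero, zero_mul, zero_add, map_one, one_mul] at hq
  have h5 : p.natDegree ≤ 1 := transl (p := p) (e := e) (c := q0 - c) he (by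
    rw [map_sub]
    linear_combination hq)
  omega

end Pool.Agent.W2helper25.PP
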